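import Pool.Agent.NH13.DZ.Stm
import Pool.Agent.NH13.PrimOrth

/-!
# Primitive orthogonality as an identity
-/

set_option autoImplicit false

open Finset

namespace Pool.Agent.NH13.DZ

open ComplexConjugate

namespace J1

open Pool.Agent.NH13 in
theorem exact (d : ℕ) [NeZero d] (c : ℕ → ℂ) (N : ℕ) :
    ∑ χ ∈ PrimS d, ‖∑ n ∈ Icc 1 N, c n * χ (n : ZMod d)‖ ^ 2 =
      (H385.phs d : ℝ) * ∑ n ∈ Icc 1 N, ‖Pool.Agent.NH13.rc d c n‖ ^ 2 +
      ∑ x ∈ d.divisorsAntidiagonal, ((ArithmeticFunction.moebius x.1 : ℤ) : ℝ) *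
        ((x.2.totient : ℝ) * Pool.Agent.NH13.offd d x.2 c N) := by
  classical
  have hd0 : d ≠ 0 := NeZero.ne d
  obtain ⟨D, hD⟩ : ∃ D : ℝ, D = ∑ n ∈ Icc 1 N, ‖Pool.Agent.NH13.rc d c n‖ ^ 2 := ⟨_, rfl⟩
  rw [← hD]
  -- inversion
  have hinv := (ArithmeticFunction.sum_eq_iff_sum_mul_moebius_eq_on (f := fun f => PS d c N f)
    (g := fun e => (e.totient : ℝ) * (D + Pool.Agent.NH13.offd d e c N)) {n | n ∣ d}
    (fun m n hmn hn => hmn.trans hn)).1 (by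
      intro n hn hnd
      have : NeZero n := ⟨hn.ne'⟩
      rw [fiber_sum d n hd0 hnd, all_sq d n hnd, split_diag, ← hD]) d (NeZero.pos d) (dvd_refl d)
  have hL : ∑ χ ∈ PrimS d, ‖∑ n ∈ Icc 1 N, c n * χ (n : ZMod d)‖ ^ 2 = PS d c N d := by
    unfold PS PrimS
    refine sum_congr ?_ fun χ _ => ?_
    · ext χ; simp
    congr 2
    refine sum_congr rfl fun n _ => ?_
    by_cases hn : n.Coprime d
    · unfold Pool.Agent.NH13.rc; rw [if_pos hn]
    · rw [Pool.Agent.NH13.rc_zero hn, χ.map_nonunit (by rwa [ZMod.isUnit_iff_coprime])]; simp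
  rw [hL, ← hinv]
  have h1 : ∑ x ∈ d.divisorsAntidiagonal, ((ArithmeticFunction.moebius x.1 : ℤ) : ℝ) *
      ((x.2.totient : ℝ) * (D + Pool.Agent.NH13.offd d x.2 c N)) =
      (∑ x ∈ d.divisorsAntidiagonal, ((ArithmeticFunction.moebius x.1 : ℤ) : ℝ) * (x.2.totient : ℝ)) * D +
      ∑ x ∈ d.divisorsAntidiagonal, ((ArithmeticFunction.moebius x.1 : ℤ) : ℝ) *
        ((x.2.totient : ℝ) * Pool.Agent.NH13.offd d x.2 c N) := by
    rw [Finset.sum_mul, ← Finset.sum_add_distrib]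
    refine sum_congr rfl fun x _ => ?_
    ring
  rw [h1, H385.phs_moebius d (NeZero.pos d)]

end J1

theorem t_PrimExact : PrimExact := fun d _ c N => J1.exact d c N

end Pool.Agent.NH13.DZ
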