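import Pool.Agent.NH13.DZ.Stm
import Pool.Agent.H385R2.DirU
import Pool.Agent.H385R2.FamAbs

/-!
# Job DZ-10: from the mean square to the zeros of the L-functions of one modulus
-/

set_option autoImplicit false

open Complex MeasureTheory Set Filter Topology

namespace Pool.Agent.NH13.DZ.J10

open H385 (bt Rw LF GoodU)
open H370 (NN Nd Ns)

lemma LF_eq' (q : ℕ) [NeZero q] (χ : DirichletCharacter ℂ q) :
    LF q χ = DirichletCharacter.LFunction χ := by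
  unfold LF
  rw [dif_neg (NeZero.ne q)]

lemma card_PrimS (q : ℕ) [NeZero q] : (PrimS q).card = phs q := by
  classical
  unfold PrimS phs
  rw [Nat.card_eq_fintype_card, Fintype.card_subtype]

lemma sq_le_exp {L : ℝ} (hL : 0 ≤ L) : L ^ 2 ≤ Real.exp L := by
  have h := Real.quadratic_le_exp_of_nonneg (show 0 ≤ L / 2 by linarith)
  have h1 : L ≤ Real.exp (L / 2) := by nlinarith [sq_nonneg (L - 2)]
  have h2 : Real.exp L = Real.exp (L / 2) * Real.exp (L / 2) := by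
    rw [← Real.exp_add]
    ring_nf
  rw [h2, sq]
  exact mul_le_mul h1 h1 hL (Real.exp_pos _).le

/-- the parameters are admissible -/
lemma param (β K L T : ℝ) (hβ : 0 < β) (hβ1 : β < 1) (hL : 2 ≤ L) (hLβ : 1 / β ≤ L) (hK : 24 ≤ K)
    (hT : K * Real.sqrt L ≤ T) (hTe : T ≤ Real.exp L) :
    3 ≤ Real.sqrt (6 * L) ∧ 8 * Real.sqrt (6 * L) ≤ T ∧ T ≤ Real.exp (Real.sqrt (6 * L) ^ 2 / 2) ∧
      1 ≤ β * L ∧ L ^ 2 * Real.exp (β * L - Real.sqrt (6 * L) ^ 2 / 2) ≤ Real.exp (-(β * L)) ∧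
      Real.sqrt (6 * L) ≤ 3 * T / K := by
  have hL0 : 0 < L := by linarith
  have hsq : Real.sqrt (6 * L) ^ 2 = 6 * L := Real.sq_sqrt (by linarith)
  have hs3 : Real.sqrt (6 * L) ≤ 3 * Real.sqrt L := by
    rw [Real.sqrt_le_left (by positivity), mul_pow, Real.sq_sqrt hL0.le]
    linarith
  have hs0 : 0 ≤ Real.sqrt L := Real.sqrt_nonneg _
  refine ⟨?_, ?_, ?_, ?_, ?_, ?_⟩
  · apply Real.le_sqrt_of_sq_le
    linarith
  · have : 24 * Real.sqrt L ≤ K * Real.sqrt L := mul_le_mul_of_nonneg_right hK hs0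
    linarith
  · rw [hsq]
    exact hTe.trans (Real.exp_le_exp.2 (by linarith))
  · rw [div_le_iff₀ hβ] at hLβ
    linarith
  · rw [hsq]
    have h1 := sq_le_exp hL0.le
    calc L ^ 2 * Real.exp (β * L - 6 * L / 2) ≤ Real.exp L * Real.exp (β * L - 6 * L / 2) :=
          mul_le_mul_of_nonneg_right h1 (Real.exp_pos _).le
      _ = Real.exp (L + (β * L - 6 * L / 2)) := by rw [Real.exp_add]
      _ ≤ Real.exp (-(β * L)) := by
          apply Real.exp_le_exp.2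
          nlinarith
  · rw [le_div_iff₀ (by linarith)]
    have : Real.sqrt (6 * L) * K ≤ 3 * Real.sqrt L * K :=
      mul_le_mul_of_nonneg_right hs3 (by linarith)
    linarith

/-- numeric core -/
lemma numeric (β c' ε R0 C ε1 K L T W J s12 SM κ : ℝ) (hβ : 0 < β) (hC : 0 < C) (hK : 0 < K)
    (hL : 0 < L) (hT : 0 < T) (hW : 0 ≤ W) (hε : 0 < ε)
    (hκ : κ ≤ 3 * T / K) (e0 : ε1 ≤ ε / 8) (e1 : 6 * Real.pi * C / (K * β) ≤ ε / 8)
    (e2 : 2 * Real.pi * C / (β * L) ≤ ε / 8) (e3 : 6 * Real.pi * C / K ≤ ε / 8)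
    (e4 : 2 * Real.pi * C * ε1 / β ≤ ε / 8)
    (hJ : J ≤ T / (2 * Real.pi) * L * W * (c' + ε1)) (hs : s12 ≤ ε1 * L * Real.sqrt W)
    (hM : SM ≤ W * L ^ 2 * R0 * T / (2 * Real.pi * (β * L)) + J +
      C * (W * (L ^ 2 * κ / (β * L) + L * T / (β * L) + κ * L) +
        Real.sqrt W * L * T * s12 / (β * L))) :
    SM ≤ (R0 / β + c' + ε) * (T / (2 * Real.pi) * L) * W := by
  have hπ := Real.pi_pos
  obtain ⟨U, hU⟩ : ∃ U, U = T / (2 * Real.pi) * L * W := ⟨_, rfl⟩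
  have hU0 : 0 ≤ U := by rw [hU]; positivity
  have h1 : W * L ^ 2 * R0 * T / (2 * Real.pi * (β * L)) = U * (R0 / β) := by
    rw [hU]; field_simp
  have hJ' : J ≤ U * (c' + ε / 8) := by
    refine hJ.trans ?_
    rw [← hU]
    exact mul_le_mul_of_nonneg_left (by linarith) hU0
  have t1 : C * (W * (L ^ 2 * κ / (β * L))) ≤ U * (ε / 8) := by
    have a1 : L ^ 2 * κ / (β * L) ≤ L * (3 * T / K) / β := by
      have : L ^ 2 * κ / (β * L) = L * κ / β := by field_simp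
      rw [this]
      gcongr
    calc C * (W * (L ^ 2 * κ / (β * L))) ≤ C * (W * (L * (3 * T / K) / β)) := by gcongr
      _ = U * (6 * Real.pi * C / (K * β)) := by rw [hU]; field_simp; ring
      _ ≤ U * (ε / 8) := mul_le_mul_of_nonneg_left e1 hU0
  have t2 : C * (W * (L * T / (β * L))) ≤ U * (ε / 8) := by
    calc C * (W * (L * T / (β * L))) = U * (2 * Real.pi * C / (β * L)) := by
          rw [hU]; field_simp
      _ ≤ U * (ε / 8) := mul_le_mul_of_nonneg_left e2 hU0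
  have t3 : C * (W * (κ * L)) ≤ U * (ε / 8) := by
    calc C * (W * (κ * L)) ≤ C * (W * ((3 * T / K) * L)) := by gcongr
      _ = U * (6 * Real.pi * C / K) := by rw [hU]; field_simp; ring
      _ ≤ U * (ε / 8) := mul_le_mul_of_nonneg_left e3 hU0
  have t4 : C * (Real.sqrt W * L * T * s12 / (β * L)) ≤ U * (ε / 8) := by
    have hWW := Real.mul_self_sqrt hW
    calc C * (Real.sqrt W * L * T * s12 / (β * L)) ≤
          C * (Real.sqrt W * L * T * (ε1 * L * Real.sqrt W) / (β * L)) := by gcongr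
      _ = (Real.sqrt W * Real.sqrt W) * (C * L * T * ε1 / β) := by field_simp
      _ = U * (2 * Real.pi * C * ε1 / β) := by rw [hWW, hU]; field_simp
      _ ≤ U * (ε / 8) := mul_le_mul_of_nonneg_left e4 hU0
  have hsum : C * (W * (L ^ 2 * κ / (β * L) + L * T / (β * L) + κ * L) +
        Real.sqrt W * L * T * s12 / (β * L)) = C * (W * (L ^ 2 * κ / (β * L))) +
        C * (W * (L * T / (β * L))) + C * (W * (κ * L)) +
        C * (Real.sqrt W * L * T * s12 / (β * L)) := by ring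
  rw [hsum, h1] at hM
  have hfin : (R0 / β + c' + ε) * (T / (2 * Real.pi) * L) * W = U * (R0 / β + c' + ε) := by
    rw [hU]; ring
  rw [hfin]
  have hUε : 0 ≤ U * ε := mul_nonneg hU0 hε.le
  have e : U * (R0 / β + c' + ε) = U * (R0 / β) + U * (c' + ε / 8) + U * (ε / 8) + U * (ε / 8) +
      U * (ε / 8) + U * (ε / 8) + 3 / 8 * (U * ε) := by ring
  rw [e]
  linarith

end Pool.Agent.NH13.DZ.J10

namespace Pool.Agent.NH13.DZ

open H385 (bt Rw LF GoodU)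
open H370 (NN Nd Ns)

theorem t_Job10 : Job10 := by
  intro hRw γ β c' h0 hπ hβ hβ1 hc' H ε hε
  have hR0 : 0 ≤ Rw γ 0 := (hRw γ h0 hπ).2.1 0
  have hpi := Real.pi_pos
  obtain ⟨A, hA, hgood⟩ := H385.good_dirichlet_U
  obtain ⟨C1, hC1, hfam⟩ := H385.fam_abstract γ h0 hπ A hA
  obtain ⟨C1', hC1', hfam'⟩ := H385.fam_abstract_d γ h0 hπ A hA
  obtain ⟨CC, hCC, hc1, hc1'⟩ : ∃ CC : ℝ, 0 < CC ∧ C1 ≤ CC ∧ C1' ≤ CC :=
    ⟨max C1 C1', lt_max_of_lt_left hC1, le_max_left _ _, le_max_right _ _⟩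
  obtain ⟨ε1, hε1, hε1a, hε1b⟩ : ∃ ε1 : ℝ, 0 < ε1 ∧ ε1 ≤ ε / 8 ∧
      2 * Real.pi * CC * ε1 / β ≤ ε / 8 := by
    refine ⟨min (ε / 8) (ε / 8 * β / (2 * Real.pi * CC)), ?_, min_le_left _ _, ?_⟩
    · exact lt_min (by positivity) (by positivity)
    · have : 2 * Real.pi * CC * min (ε / 8) (ε / 8 * β / (2 * Real.pi * CC)) ≤
          2 * Real.pi * CC * (ε / 8 * β / (2 * Real.pi * CC)) := by
        gcongr; exact min_le_right _ _
      rw [div_le_iff₀ hβ]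
      refine this.trans (le_of_eq ?_)
      field_simp
  obtain ⟨K0, hK0, hmain⟩ := H ε1 hε1
  obtain ⟨L0, hL0a, hL0b, hL0c⟩ : ∃ L0 : ℝ, 2 ≤ L0 ∧ 1 / β ≤ L0 ∧
      16 * Real.pi * CC / (ε * β) ≤ L0 := by
    refine ⟨2 + 1 / β + 16 * Real.pi * CC / (ε * β), ?_, ?_, ?_⟩
    · have : 0 ≤ 1 / β + 16 * Real.pi * CC / (ε * β) := by positivity
      linarith
    · have : 0 ≤ 16 * Real.pi * CC / (ε * β) := by positivity
      linarith
    · have : 0 ≤ 1 / β := by positivity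
      linarith
  obtain ⟨K1, hK1a, hK1b, hK1c⟩ : ∃ K1 : ℝ, 24 ≤ K1 ∧ 48 * Real.pi * CC / (ε * β) ≤ K1 ∧
      48 * Real.pi * CC / ε ≤ K1 := by
    refine ⟨24 + 48 * Real.pi * CC / (ε * β) + 48 * Real.pi * CC / ε, ?_, ?_, ?_⟩
    · have : 0 ≤ 48 * Real.pi * CC / (ε * β) + 48 * Real.pi * CC / ε := by positivity
      linarith
    · have : 0 ≤ 48 * Real.pi * CC / ε := by positivity
      linarith
    · have : 0 ≤ 48 * Real.pi * CC / (ε * β) := by positivity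
      linarith
  obtain ⟨K, hKK0, hKe, hKK1⟩ : ∃ K : ℝ, K0 ≤ K ∧ Real.exp L0 ≤ K ∧ K1 ≤ K :=
    ⟨max K0 (max (Real.exp L0) K1), le_max_left _ _, (le_max_left _ _).trans (le_max_right _ _),
      (le_max_right _ _).trans (le_max_right _ _)⟩
  refine ⟨K, hK0.trans hKK0, ?_⟩
  intro q _ T hadm hphs
  have hK24 : 24 ≤ K := hK1a.trans hKK1
  have hKp : 0 < K := by linarith
  have hTp : 0 < T := by linarith [hadm.1]
  have hq1 : (1 : ℝ) ≤ q := by exact_mod_cast (NeZero.one_le : 1 ≤ q)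
  have hqT : T ≤ q * T := by nlinarith
  have hadm0 : Adm K0 q T :=
    ⟨hKK0.trans hadm.1, (mul_le_mul_of_nonneg_right hKK0 (Real.sqrt_nonneg _)).trans hadm.2⟩
  obtain ⟨Yf, y1, y2, hy1, hy2, m1, m2, m3, m4, m5⟩ := hmain q T hadm0 hphs
  have hadm2 := hadm.2
  obtain ⟨L, hL⟩ : ∃ L, L = Real.log (q * T) := ⟨_, rfl⟩
  rw [← hL] at m1 m2 m3 m4 m5 hadm2 ⊢
  have hexpL : Real.exp L = q * T := by rw [hL, Real.exp_log (by linarith)]
  have hLL0 : L0 ≤ L := by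
    rw [hL, Real.le_log_iff_exp_le (by linarith)]
    linarith [hadm.1]
  have hL2 : 2 ≤ L := hL0a.trans hLL0
  have hLp : 0 < L := by linarith
  obtain ⟨p1, p2, p3, p4, p5, p6⟩ := J10.param β K L T hβ hβ1 hL2 (hL0b.trans hLL0) hK24 hadm2
    (by rw [hexpL]; exact hqT)
  have hdata : ∀ χ ∈ PrimS q, (0 : ℝ) ≤ 1 ∧ (1 : ℝ) ≤ (q : ℝ) ∧
      GoodU A (q : ℝ) (LF q χ)
        (fun n => χ (n : ZMod q) * (ArithmeticFunction.vonMangoldt n : ℂ)) ∧
      Real.log ((q : ℝ) * T) ≤ L := by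
    intro χ hχ
    have hχ' : χ.IsPrimitive := by
      classical
      unfold PrimS at hχ
      simpa using hχ
    refine ⟨zero_le_one, hq1, ?_, hL.symm.le⟩
    rw [J10.LF_eq']
    exact hgood q χ hχ'
  have hms : ∀ u ∈ Set.Icc 0 (β * L),
        ∫ t : ℝ, ∑ χ ∈ PrimS q, (1 : ℝ) *
          ‖∑' n : ℕ, (χ (n : ZMod q) * (ArithmeticFunction.vonMangoldt n : ℂ)) *
            ((Real.sqrt n : ℂ)⁻¹ * bt T u t (Real.log n))‖ ^ 2 ≤ Yf u := by
    intro u hu
    simp only [one_mul]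
    exact m1 u hu
  have k1 := hfam (PrimS q) (fun _ => (1 : ℝ)) (fun _ => (q : ℝ))
    (fun χ => LF q χ) (fun χ n => χ (n : ZMod q) * (ArithmeticFunction.vonMangoldt n : ℂ))
    T (Real.sqrt (6 * L)) (β * L) L y1 y2 Yf hdata p1 p2 p3 p4 (by linarith) p5 hy1 hy2 hms m2 m3
  have k2 := hfam' (PrimS q) (fun _ => (1 : ℝ)) (fun _ => (q : ℝ))
    (fun χ => LF q χ) (fun χ n => χ (n : ZMod q) * (ArithmeticFunction.vonMangoldt n : ℂ))
    T (Real.sqrt (6 * L)) (β * L) L y1 y2 Yf hdata p1 p2 p3 p4 (by linarith) p5 hy1 hy2 hms m2 m3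
  have hW : ∑ _χ ∈ PrimS q, (1 : ℝ) = phs q := by
    rw [Finset.sum_const, nsmul_eq_mul, mul_one, J10.card_PrimS]
  simp only [one_mul] at k1 k2
  rw [hW] at k1 k2
  have core : ∀ (D SM : ℝ), 0 < D → D ≤ CC →
      SM ≤ (phs q : ℝ) * L ^ 2 * Rw γ 0 * T / (2 * Real.pi * (β * L)) +
        (2 / (Real.sqrt Real.pi * (β * L))) * (∫ u in (0 : ℝ)..(β * L), Rw γ (u / (β * L)) * Yf u) +
      D * ((phs q : ℝ) * (L ^ 2 * Real.sqrt (6 * L) / (β * L) + L * T / (β * L) +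
        Real.sqrt (6 * L) * L) + Real.sqrt (phs q : ℝ) * L * T *
          (Real.sqrt y1 + Real.sqrt y2) / (β * L)) →
      SM ≤ (Rw γ 0 / β + c' + ε) * (T / (2 * Real.pi) * L) * (phs q : ℝ) := by
    intro D SM hD hDC hSM
    refine J10.numeric β c' ε (Rw γ 0) D ε1 K L T (phs q : ℝ) _ _ SM _ hβ hD hKp hLp hTp
      (Nat.cast_nonneg _) hε p6 hε1a ?_ ?_ ?_ ?_ m4 m5 hSM
    · rw [div_le_iff₀ (by positivity)]
      rw [div_le_iff₀ (by positivity)] at hK1b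
      have h1 : K1 * (ε * β) ≤ K * (ε * β) := mul_le_mul_of_nonneg_right hKK1 (by positivity)
      have h2 : Real.pi * D ≤ Real.pi * CC := mul_le_mul_of_nonneg_left hDC hpi.le
      linarith
    · rw [div_le_iff₀ (by positivity)]
      rw [div_le_iff₀ (by positivity)] at hL0c
      have h1 : L0 * (ε * β) ≤ L * (ε * β) := mul_le_mul_of_nonneg_right hLL0 (by positivity)
      have h2 : Real.pi * D ≤ Real.pi * CC := mul_le_mul_of_nonneg_left hDC hpi.le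
      linarith
    · rw [div_le_iff₀ (by positivity)]
      rw [div_le_iff₀ (by positivity)] at hK1c
      have h1 : K1 * ε ≤ K * ε := mul_le_mul_of_nonneg_right hKK1 (by positivity)
      have h2 : Real.pi * D ≤ Real.pi * CC := mul_le_mul_of_nonneg_left hDC hpi.le
      linarith
    · refine le_trans ?_ hε1b
      gcongr
  exact ⟨core C1 _ hC1 hc1 k1, core C1' _ hC1' hc1' k2⟩

end Pool.Agent.NH13.DZ
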