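import Pool.Agent.NH13.DZ.Stm
import Pool.Agent.H385R2.NLow
import Pool.Agent.H385R2.DirU

/-! Job 11: the lower bound for the number of zeros. -/

set_option autoImplicit false

open Complex MeasureTheory Set Filter Topology ComplexConjugate

namespace Pool.Agent.NH13.DZ

open H385 (bt Rw LF GoodU)
open H370 (NN Nd Ns)

namespace J11

theorem LF_eq' (q : ℕ) [NeZero q] (χ : DirichletCharacter ℂ q) :
    LF q χ = DirichletCharacter.LFunction χ := by
  unfold LF
  rw [dif_neg (NeZero.ne q)]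

theorem sq_exp (L : ℝ) (hL : 0 ≤ L) : L ^ 2 * Real.exp (-(3 * L)) ≤ 1 := by
  have h1 : L ≤ Real.exp L := by
    have := Real.add_one_le_exp L
    linarith
  have h2 : L ^ 2 ≤ Real.exp L ^ 2 := pow_le_pow_left₀ hL h1 2
  have h3 : Real.exp L ^ 2 = Real.exp (2 * L) := by
    rw [← Real.exp_nat_mul]
    norm_num
  have h4 : L ^ 2 * Real.exp (-(3 * L)) ≤ Real.exp (2 * L) * Real.exp (-(3 * L)) := by
    rw [← h3]
    exact mul_le_mul_of_nonneg_right h2 (Real.exp_pos _).le
  rw [← Real.exp_add] at h4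
  refine h4.trans ?_
  rw [Real.exp_le_one_iff]
  linarith

theorem num (C ε M K T L κ : ℝ) (hC : 0 < C) (hε : 0 < ε) (hM : M = 10 * Real.pi * C / ε)
    (hKM : M ≤ K) (hL : M + 2 ≤ L) (hT : K * Real.sqrt L ≤ T) (hT0 : 0 < T) (hK0 : 0 < K)
    (hκ : κ = Real.sqrt (6 * L)) :
    C * (T + κ * L + T * L ^ 2 * Real.exp (-κ ^ 2 / 2)) ≤ ε * (T / (2 * Real.pi) * L) := by
  have hπ := Real.pi_pos
  have hM0 : 0 < M := by rw [hM]; positivity
  have hL0 : 0 < L := by linarith
  have hκ2 : κ ^ 2 = 6 * L := by rw [hκ, Real.sq_sqrt (by linarith)]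
  have hs : Real.sqrt L ^ 2 = L := Real.sq_sqrt hL0.le
  have hs0 : 0 ≤ Real.sqrt L := Real.sqrt_nonneg L
  have hκ3 : κ ≤ 3 * Real.sqrt L := by
    rw [hκ]
    apply Real.sqrt_le_iff.2
    refine ⟨by positivity, ?_⟩
    rw [mul_pow, hs]
    linarith
  -- first term
  have e1 : M * T ≤ T * L := by nlinarith
  -- second term
  have e2 : M * (κ * L) ≤ 3 * (T * L) := by
    have h1 : M * κ ≤ 3 * T := by
      calc M * κ ≤ K * (3 * Real.sqrt L) :=
            mul_le_mul hKM hκ3 (by rw [hκ]; exact Real.sqrt_nonneg _) hK0.le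
        _ = 3 * (K * Real.sqrt L) := by ring
        _ ≤ 3 * T := by linarith
    nlinarith
  -- third term
  have e3 : M * (T * L ^ 2 * Real.exp (-κ ^ 2 / 2)) ≤ T * L := by
    have h1 : Real.exp (-κ ^ 2 / 2) = Real.exp (-(3 * L)) := by
      congr 1
      rw [hκ2]
      ring
    have h2 := sq_exp L hL0.le
    rw [h1]
    have h3 : T * L ^ 2 * Real.exp (-(3 * L)) ≤ T := by
      calc T * L ^ 2 * Real.exp (-(3 * L)) = T * (L ^ 2 * Real.exp (-(3 * L))) := by ring
        _ ≤ T * 1 := mul_le_mul_of_nonneg_left h2 hT0.le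
        _ = T := mul_one T
    calc M * (T * L ^ 2 * Real.exp (-(3 * L))) ≤ M * T := mul_le_mul_of_nonneg_left h3 hM0.le
      _ ≤ T * L := e1
  have e4 : M * (T + κ * L + T * L ^ 2 * Real.exp (-κ ^ 2 / 2)) ≤ 5 * (T * L) := by
    have : M * (T + κ * L + T * L ^ 2 * Real.exp (-κ ^ 2 / 2)) =
        M * T + M * (κ * L) + M * (T * L ^ 2 * Real.exp (-κ ^ 2 / 2)) := by ring
    rw [this]
    linarith
  have e5 : C = ε * M / (10 * Real.pi) := by
    rw [hM]
    field_simp
  have e6 : C * (T + κ * L + T * L ^ 2 * Real.exp (-κ ^ 2 / 2)) =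
      ε / (10 * Real.pi) * (M * (T + κ * L + T * L ^ 2 * Real.exp (-κ ^ 2 / 2))) := by
    rw [e5]
    ring
  rw [e6]
  have e7 : ε / (10 * Real.pi) * (M * (T + κ * L + T * L ^ 2 * Real.exp (-κ ^ 2 / 2))) ≤
      ε / (10 * Real.pi) * (5 * (T * L)) := mul_le_mul_of_nonneg_left e4 (by positivity)
  refine e7.trans (le_of_eq ?_)
  field_simp
  ring

end J11

open J11 in
/-- job 11: the lower bound for the number of zeros -/
theorem t_NLowq : NLowq := by
  obtain ⟨A, hA, hgood⟩ := H385.good_dirichlet_U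
  obtain ⟨C, hC, hlow⟩ := H385.N_lower A hA
  intro ε hε
  have hπ := Real.pi_pos
  set M : ℝ := 10 * Real.pi * C / ε with hM
  have hM0 : 0 < M := by rw [hM]; positivity
  set K : ℝ := max 20 (Real.exp (M + 2)) with hK
  have hK20 : 20 ≤ K := le_max_left _ _
  have hKe : Real.exp (M + 2) ≤ K := le_max_right _ _
  have hKM : M ≤ K := by
    have := Real.add_one_le_exp (M + 2)
    linarith
  refine ⟨K, by linarith, fun q _ χ T hχ hadm => ?_⟩
  obtain ⟨hKT, hKs⟩ := hadm
  have hq1 : (1 : ℝ) ≤ q := by exact_mod_cast NeZero.one_le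
  have hT0 : 0 < T := by linarith
  set L : ℝ := Real.log (q * T) with hLdef
  have hL : M + 2 ≤ L := by
    rw [hLdef, Real.le_log_iff_exp_le (by positivity)]
    refine hKe.trans (hKT.trans ?_)
    exact le_mul_of_one_le_left hT0.le hq1
  have hL0 : 0 < L := by linarith
  set κ : ℝ := Real.sqrt (6 * L) with hκ
  have hκ2 : κ ^ 2 = 6 * L := by rw [hκ, Real.sq_sqrt (by linarith)]
  have hκ0 : 0 ≤ κ := Real.sqrt_nonneg _
  have p1 : 3 ≤ κ := by
    rw [hκ]
    apply Real.le_sqrt_of_sq_le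
    linarith
  have p2 : 8 * κ ≤ T := by
    have hs : Real.sqrt L ^ 2 = L := Real.sq_sqrt hL0.le
    have hs0 : 0 ≤ Real.sqrt L := Real.sqrt_nonneg L
    have hκ3 : κ ≤ 5 / 2 * Real.sqrt L := by
      rw [hκ]
      apply Real.sqrt_le_iff.2
      refine ⟨by positivity, ?_⟩
      rw [mul_pow, hs]
      linarith
    have h1 : 20 * Real.sqrt L ≤ K * Real.sqrt L := mul_le_mul_of_nonneg_right hK20 hs0
    linarith
  have hl := hlow q (LF q χ) _ hq1 (by rw [LF_eq']; exact hgood q χ hχ) T κ p1 p2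
  have hn := num C ε M K T L κ hC hε hM hKM hL hKs hT0 (by linarith) hκ
  have e : (1 - ε) * (T / (2 * Real.pi) * L) =
      T / (2 * Real.pi) * L - ε * (T / (2 * Real.pi) * L) := by ring
  rw [e]
  refine le_trans ?_ hl
  linarith

end Pool.Agent.NH13.DZ
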