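import Pool.Agent.NH13.DZ.Stm
import Pool.Agent.H385R2.Cut

/-!
# The kernel of the `t`-integration off the diagonal
-/

set_option autoImplicit false

open Complex MeasureTheory Set Filter Topology ComplexConjugate

namespace Pool.Agent.NH13.DZ

open H385 (bt)

namespace J2

open H385 H385.Cut

/-- the integrand -/
noncomputable def g (v s : ℝ) : ℂ := (Real.exp (-s ^ 2 / 4) : ℂ) * cexp (I * (s / 2) * v)

lemma g_cont (v : ℝ) : Continuous (g v) := by
  unfold g
  fun_prop

lemma g_norm (v s : ℝ) : ‖g v s‖ = Real.exp (-(1 / 4) * s ^ 2) := by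
  rw [g, norm_mul, Complex.norm_real, Real.norm_of_nonneg (Real.exp_pos _).le]
  have : (I * (s / 2) * v : ℂ) = ((s / 2 * v : ℝ) : ℂ) * I := by
    push_cast; ring
  rw [this, Complex.norm_exp_ofReal_mul_I, mul_one]
  congr 1
  ring

/-- primitive -/
noncomputable def P (v x : ℝ) : ℂ := ∫ s in (0 : ℝ)..x, g v s

lemma P_deriv (v x : ℝ) : HasDerivAt (P v) (g v x) x :=
  ((g_cont v).integral_hasStrictDerivAt 0 x).hasDerivAt

/-- the amplitude -/
noncomputable def Hf (T v t : ℝ) : ℂ := P v (2 * T - t) - P v (T - t)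

lemma Hf_deriv (T v t : ℝ) :
    HasDerivAt (Hf T v) (g v (T - t) - g v (2 * T - t)) t := by
  have h1 : HasDerivAt (fun t : ℝ => 2 * T - t) (-1) t := (hasDerivAt_id t).const_sub (2 * T)
  have h2 : HasDerivAt (fun t : ℝ => T - t) (-1) t := (hasDerivAt_id t).const_sub T
  have h3 := (P_deriv v (2 * T - t)).scomp t h1
  have h4 := (P_deriv v (T - t)).scomp t h2
  have h5 := h3.sub h4
  refine h5.congr_deriv ?_
  simp
  ring

lemma Hf_cont (T v : ℝ) : Continuous (Hf T v) :=
  continuous_iff_continuousAt.2 fun t => (Hf_deriv T v t).continuousAt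

lemma JJ_eq (T u t l : ℝ) : JJ T u t l = cexp (I * t * (u - l)) * Hf T (u - l) t := by
  have h1 : Hf T (u - l) t = ∫ s in (T - t)..(2 * T - t), g (u - l) s := by
    rw [Hf, P, P, intervalIntegral.integral_interval_sub_left
      ((g_cont _).intervalIntegrable _ _) ((g_cont _).intervalIntegrable _ _)]
  rw [h1, ← intervalIntegral.integral_comp_sub_right (fun s => g (u - l) s) t,
    ← intervalIntegral.integral_const_mul, JJ]
  congr 1
  ext τ
  rw [g, mul_left_comm, ← Complex.exp_add]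
  congr 2
  · congr 1
    ring
  · push_cast
    ring

lemma Hf_norm (T v t : ℝ) : ‖Hf T v t‖ = ‖JJ T v t 0‖ := by
  rw [JJ_eq, norm_mul]
  have : (I * t * (v - (0 : ℝ)) : ℂ) = ((t * v : ℝ) : ℂ) * I := by
    push_cast; ring
  rw [this, Complex.norm_exp_ofReal_mul_I, one_mul, sub_zero]

lemma Hf_le (T v t : ℝ) (hT : 0 ≤ T) : ‖Hf T v t‖ ≤ 2 * Real.sqrt Real.pi * wt T t := by
  rw [Hf_norm]
  refine (JJ_le T v t 0 hT).trans (le_of_eq ?_)
  rw [wt_eq]
  have := sqrt_pi_pos
  field_simp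

lemma Hf_le' (T v t : ℝ) (hT : 0 ≤ T) : ‖Hf T v t‖ ≤ 2 * Real.sqrt Real.pi := by
  refine (Hf_le T v t hT).trans ?_
  have := sqrt_pi_pos
  have := wt_le_one T t hT
  nlinarith

/-- the product of the amplitudes -/
noncomputable def F (T v v' t : ℝ) : ℂ := Hf T v t * conj (Hf T v' t)

/-- its derivative -/
noncomputable def F' (T v v' t : ℝ) : ℂ :=
  (g v (T - t) - g v (2 * T - t)) * conj (Hf T v' t) +
    Hf T v t * conj (g v' (T - t) - g v' (2 * T - t))

lemma F_deriv (T v v' t : ℝ) : HasDerivAt (F T v v') (F' T v v' t) t :=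
  (Hf_deriv T v t).mul ((Hf_deriv T v' t).star)

lemma gd_le (T v t : ℝ) : ‖g v (T - t) - g v (2 * T - t)‖ ≤
    Real.exp (-(1 / 4) * (t - T) ^ 2) + Real.exp (-(1 / 4) * (t - 2 * T) ^ 2) := by
  refine (norm_sub_le _ _).trans (le_of_eq ?_)
  rw [g_norm, g_norm]
  congr 2 <;> ring

lemma F'_le (T v v' t : ℝ) (hT : 0 ≤ T) : ‖F' T v v' t‖ ≤ 4 * Real.sqrt Real.pi *
    (Real.exp (-(1 / 4) * (t - T) ^ 2) + Real.exp (-(1 / 4) * (t - 2 * T) ^ 2)) := by
  have h1 := gd_le T v t
  have h2 := gd_le T v' t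
  have h3 := Hf_le' T v t hT
  have h4 := Hf_le' T v' t hT
  have h5 := sqrt_pi_pos
  calc ‖F' T v v' t‖ ≤ ‖g v (T - t) - g v (2 * T - t)‖ * ‖Hf T v' t‖ +
        ‖Hf T v t‖ * ‖g v' (T - t) - g v' (2 * T - t)‖ := by
        refine (norm_add_le _ _).trans (le_of_eq ?_)
        rw [norm_mul, norm_mul, RCLike.norm_conj, RCLike.norm_conj]
    _ ≤ (Real.exp (-(1 / 4) * (t - T) ^ 2) + Real.exp (-(1 / 4) * (t - 2 * T) ^ 2)) *
          (2 * Real.sqrt Real.pi) + (2 * Real.sqrt Real.pi) *
          (Real.exp (-(1 / 4) * (t - T) ^ 2) + Real.exp (-(1 / 4) * (t - 2 * T) ^ 2)) := by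
        gcongr
    _ = _ := by ring

lemma F'_cont (T v v' : ℝ) : Continuous (F' T v v') := by
  have h1 := Hf_cont T v
  have h2 := Hf_cont T v'
  have h3 := g_cont v
  have h4 := g_cont v'
  unfold F'
  fun_prop

lemma maj (T : ℝ) : Integrable (fun t : ℝ => 4 * Real.sqrt Real.pi *
    (Real.exp (-(1 / 4) * (t - T) ^ 2) + Real.exp (-(1 / 4) * (t - 2 * T) ^ 2))) :=
  ((int_gauss_shift hq T).add (int_gauss_shift hq (2 * T))).const_mul _

lemma maj_int (T : ℝ) : ∫ t : ℝ, 4 * Real.sqrt Real.pi *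
    (Real.exp (-(1 / 4) * (t - T) ^ 2) + Real.exp (-(1 / 4) * (t - 2 * T) ^ 2)) = 16 * Real.pi := by
  rw [integral_const_mul, integral_add (int_gauss_shift hq T) (int_gauss_shift hq (2 * T)),
    integral_gauss_shift, integral_gauss_shift, sqrt_pi_quarter]
  have := Real.mul_self_sqrt Real.pi_pos.le
  nlinarith

lemma F_cont (T v v' : ℝ) : Continuous (F T v v') :=
  continuous_iff_continuousAt.2 fun t => (F_deriv T v v' t).continuousAt

lemma F_int (T v v' : ℝ) (hT : 0 ≤ T) : Integrable (F T v v') := by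
  refine Integrable.mono' ((wt_integrable T hT).const_mul (4 * Real.pi))
    (F_cont T v v').aestronglyMeasurable (Eventually.of_forall fun t => ?_)
  rw [F, norm_mul, RCLike.norm_conj]
  have h1 := Hf_le T v t hT
  have h2 := Hf_le' T v' t hT
  have h3 := sqrt_pi_pos
  have h4 := Real.mul_self_sqrt Real.pi_pos.le
  have h5 := wt_nonneg T t hT
  calc _ ≤ (2 * Real.sqrt Real.pi * wt T t) * (2 * Real.sqrt Real.pi) := by gcongr
    _ = 4 * (Real.sqrt Real.pi * Real.sqrt Real.pi) * wt T t := by ring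
    _ = _ := by rw [h4]

/-- integration by parts -/
lemma osc (T v v' w : ℝ) (hT : 0 ≤ T) (hw : w ≠ 0) :
    ‖∫ t : ℝ, F T v v' t * cexp (I * t * w)‖ ≤ 16 * Real.pi / |w| := by
  have hwc : (I * w : ℂ) ≠ 0 := mul_ne_zero I_ne_zero (by exact_mod_cast hw)
  have he : ∀ t : ℝ, ‖cexp (I * t * w)‖ = 1 := by
    intro t
    have : (I * t * w : ℂ) = ((t * w : ℝ) : ℂ) * I := by push_cast; ring
    rw [this, Complex.norm_exp_ofReal_mul_I]
  have hv : ∀ t : ℝ, HasDerivAt (fun t : ℝ => cexp (I * t * w) / (I * w)) (cexp (I * t * w)) t := by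
    intro t
    have h1 : HasDerivAt (fun t : ℝ => (I * t * w : ℂ)) (I * w) t := by
      have := ((Complex.ofRealCLM.hasDerivAt (x := t)).const_mul I).mul_const (w : ℂ)
      simpa using this
    refine (h1.cexp.div_const (I * w)).congr_deriv ?_
    rw [mul_div_assoc, div_self hwc, mul_one]
  have hc : Continuous fun t : ℝ => cexp (I * t * w) := by fun_prop
  have i1 : Integrable (fun t : ℝ => F T v v' t * cexp (I * t * w)) := by
    refine Integrable.mono' (F_int T v v' hT).norm
      ((F_cont T v v').mul hc).aestronglyMeasurable (Eventually.of_forall fun t => ?_)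
    rw [norm_mul, he, mul_one]
  have i2 : Integrable (fun t : ℝ => F' T v v' t * (cexp (I * t * w) / (I * w))) := by
    refine Integrable.mono' ((maj T).mul_const (1 / |w|))
      ((F'_cont T v v').mul (hc.div_const _)).aestronglyMeasurable (Eventually.of_forall fun t => ?_)
    rw [norm_mul, norm_div, he, norm_mul, norm_I, one_mul, Complex.norm_real, Real.norm_eq_abs]
    exact mul_le_mul_of_nonneg_right (F'_le T v v' t hT) (by positivity)
  have i3 : Integrable (fun t : ℝ => F T v v' t * (cexp (I * t * w) / (I * w))) := by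
    have := i1.div_const (I * w)
    refine this.congr (Eventually.of_forall fun t => ?_)
    simp only
    ring
  have hparts := integral_mul_deriv_eq_deriv_mul_of_integrable (fun t _ => F_deriv T v v' t)
    (fun t _ => hv t)
    i1 i2 i3
  rw [hparts, norm_neg]
  refine (norm_integral_le_of_norm_le ((maj T).mul_const (1 / |w|))
    (Eventually.of_forall fun t => ?_)).trans (le_of_eq ?_)
  · rw [norm_mul, norm_div, he, norm_mul, norm_I, one_mul, Complex.norm_real, Real.norm_eq_abs]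
    exact mul_le_mul_of_nonneg_right (F'_le T v v' t hT) (by positivity)
  · rw [integral_mul_const, maj_int]
    ring

end J2

open J2 in
theorem t_Kernel : Kernel := by
  intro T u l l' hT hll
  have h1 : ∀ t : ℝ, bt T u t l * conj (bt T u t l') =
      (((1 / (2 * Real.sqrt Real.pi) * (1 / Real.sqrt (2 * Real.pi)) *
        Real.exp (-(u - l) ^ 2 / 4)) * (1 / (2 * Real.sqrt Real.pi) * (1 / Real.sqrt (2 * Real.pi)) *
        Real.exp (-(u - l') ^ 2 / 4)) : ℝ) : ℂ) *
        (F T (u - l) (u - l') t * cexp (I * t * ((l' - l : ℝ) : ℂ))) := by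
    intro t
    rw [H385.Cut.bt_eq, H385.Cut.bt_eq, JJ_eq, JJ_eq, F]
    have h2 : cexp (I * t * ((l' - l : ℝ) : ℂ)) =
        cexp (I * t * (u - l)) * conj (cexp (I * t * (u - l'))) := by
      rw [← Complex.exp_conj, ← Complex.exp_add]
      congr 1
      simp only [map_mul, map_sub, Complex.conj_I, Complex.conj_ofReal]
      push_cast
      ring
    rw [h2]
    simp only [map_mul, Complex.conj_ofReal]
    push_cast
    ring
  simp only [h1]
  rw [integral_const_mul, norm_mul, Complex.norm_real, Real.norm_of_nonneg (by positivity)]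
  have h3 := osc T (u - l) (u - l') (l' - l) hT (sub_ne_zero.2 hll.symm)
  have h4 : |l' - l| = |l - l'| := abs_sub_comm _ _
  rw [h4] at h3
  have hpos : 0 < |l - l'| := abs_pos.2 (sub_ne_zero.2 hll)
  have h5 := Real.mul_self_sqrt Real.pi_pos.le
  have h6 := Real.mul_self_sqrt (x := 2 * Real.pi) (by positivity)
  have h7 : (1 / (2 * Real.sqrt Real.pi) * (1 / Real.sqrt (2 * Real.pi)) *
        Real.exp (-(u - l) ^ 2 / 4)) * (1 / (2 * Real.sqrt Real.pi) * (1 / Real.sqrt (2 * Real.pi)) *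
        Real.exp (-(u - l') ^ 2 / 4)) = 1 / (8 * Real.pi ^ 2) *
        Real.exp (-((u - l) ^ 2 + (u - l') ^ 2) / 4) := by
    have e : Real.exp (-((u - l) ^ 2 + (u - l') ^ 2) / 4) =
        Real.exp (-(u - l) ^ 2 / 4) * Real.exp (-(u - l') ^ 2 / 4) := by
      rw [← Real.exp_add]
      congr 1
      ring
    rw [e]
    have e2 : (1 / (2 * Real.sqrt Real.pi) * (1 / Real.sqrt (2 * Real.pi))) *
        (1 / (2 * Real.sqrt Real.pi) * (1 / Real.sqrt (2 * Real.pi))) = 1 / (8 * Real.pi ^ 2) := by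
      rw [div_mul_div_comm, div_mul_div_comm]
      congr 1
      · ring
      · calc _ = 4 * (Real.sqrt Real.pi * Real.sqrt Real.pi) *
              (Real.sqrt (2 * Real.pi) * Real.sqrt (2 * Real.pi)) := by ring
          _ = _ := by rw [h5, h6]; ring
    rw [← e2]
    ring
  rw [h7]
  calc _ ≤ 1 / (8 * Real.pi ^ 2) * Real.exp (-((u - l) ^ 2 + (u - l') ^ 2) / 4) *
        (16 * Real.pi / |l - l'|) := by gcongr
    _ = (2 / Real.pi) * (Real.exp (-((u - l) ^ 2 + (u - l') ^ 2) / 4) / |l - l'|) := by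
        field_simp
        ring
    _ ≤ 1 * (Real.exp (-((u - l) ^ 2 + (u - l') ^ 2) / 4) / |l - l'|) := by
        gcongr
        rw [div_le_one Real.pi_pos]
        exact Real.two_le_pi
    _ = _ := one_mul _

end Pool.Agent.NH13.DZ
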