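import Pool.Agent.NH13.DZ.Stm
import Pool.Agent.H385R2.Cut

/-!
# Integral of the off-diagonal part
-/

set_option autoImplicit false
set_option linter.unusedSectionVars false

open Complex MeasureTheory Set Filter Topology ComplexConjugate

namespace Pool.Agent.NH13.DZ.J3

open H385 (bt wt)

theorem bt_cont_t (T u l : ℝ) : Continuous (fun t : ℝ => bt T u t l) :=
  (H385.bt_cont T l).comp (continuous_const.prodMk continuous_id)

theorem bt_norm_le (T u t l : ℝ) (hT : 0 ≤ T) : ‖bt T u t l‖ ≤ wt T t := by
  have h1 := H385.bt_norm T u t l hT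
  have h2 : 0 ≤ wt T t := H385.wt_nonneg T t hT
  have h3 : 1 / Real.sqrt (2 * Real.pi) ≤ 1 := by
    rw [div_le_one (Real.sqrt_pos.2 (by positivity))]
    rw [Real.one_le_sqrt]
    nlinarith [Real.pi_gt_three]
  have h4 : Real.exp (-(u - l) ^ 2 / 4) ≤ 1 := by
    rw [Real.exp_le_one_iff]
    nlinarith [sq_nonneg (u - l)]
  have h5 : 1 / Real.sqrt (2 * Real.pi) * Real.exp (-(u - l) ^ 2 / 4) ≤ 1 :=
    mul_le_one₀ h3 (Real.exp_pos _).le h4
  calc ‖bt T u t l‖ ≤ 1 / Real.sqrt (2 * Real.pi) * Real.exp (-(u - l) ^ 2 / 4) * wt T t := h1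
    _ ≤ 1 * wt T t := mul_le_mul_of_nonneg_right h5 h2
    _ = wt T t := one_mul _

theorem int_prod (T u l l' : ℝ) (hT : 0 ≤ T) :
    Integrable (fun t : ℝ => bt T u t l * conj (bt T u t l')) := by
  obtain ⟨C, -, hC⟩ := H385.wt_sq_int
  refine Integrable.mono' (hC T hT).1 ?_ (Eventually.of_forall fun t => ?_)
  · exact ((bt_cont_t T u l).mul (continuous_conj.comp (bt_cont_t T u l'))).aestronglyMeasurable
  · rw [norm_mul, RCLike.norm_conj, sq]
    exact mul_le_mul (bt_norm_le T u t l hT) (bt_norm_le T u t l' hT) (norm_nonneg _)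
      (H385.wt_nonneg T t hT)

theorem summand (hK : Kernel) (T u : ℝ) (d e m n : ℕ) (hT : 0 ≤ T) (hm : 1 ≤ m) (hn : 1 ≤ n) :
    Integrable (fun t : ℝ => if (m : ZMod e) = (n : ZMod e) ∧ m ≠ n then
      (rc d (cf T u t) m * conj (rc d (cf T u t) n)).re else 0) ∧
    |∫ t : ℝ, (if (m : ZMod e) = (n : ZMod e) ∧ m ≠ n then
      (rc d (cf T u t) m * conj (rc d (cf T u t) n)).re else 0)| ≤
      if (m : ZMod e) = (n : ZMod e) ∧ m ≠ n then
        ArithmeticFunction.vonMangoldt m * ArithmeticFunction.vonMangoldt n /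
          (Real.sqrt m * Real.sqrt n) *
          (Real.exp (-((u - Real.log m) ^ 2 + (u - Real.log n) ^ 2) / 4) /
            |Real.log m - Real.log n|) else 0 := by
  by_cases hc : (m : ZMod e) = (n : ZMod e) ∧ m ≠ n
  · simp only [if_pos hc]
    have hΛm : 0 ≤ ArithmeticFunction.vonMangoldt m := ArithmeticFunction.vonMangoldt_nonneg
    have hΛn : 0 ≤ ArithmeticFunction.vonMangoldt n := ArithmeticFunction.vonMangoldt_nonneg
    have hnn : 0 ≤ ArithmeticFunction.vonMangoldt m * ArithmeticFunction.vonMangoldt n /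
          (Real.sqrt m * Real.sqrt n) *
          (Real.exp (-((u - Real.log m) ^ 2 + (u - Real.log n) ^ 2) / 4) /
            |Real.log m - Real.log n|) := by positivity
    by_cases hd : m.Coprime d ∧ n.Coprime d
    · have hm0 : (0 : ℝ) < m := by exact_mod_cast hm
      have hn0 : (0 : ℝ) < n := by exact_mod_cast hn
      have hl : Real.log m ≠ Real.log n := by
        intro h
        apply hc.2
        have h1 := Real.log_injOn_pos (Set.mem_Ioi.2 hm0) (Set.mem_Ioi.2 hn0) h
        exact_mod_cast h1
      have e1 : (fun t : ℝ => (rc d (cf T u t) m * conj (rc d (cf T u t) n)).re) = fun t : ℝ =>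
          (ArithmeticFunction.vonMangoldt m * ArithmeticFunction.vonMangoldt n /
            (Real.sqrt m * Real.sqrt n)) *
            (bt T u t (Real.log m) * conj (bt T u t (Real.log n))).re := by
        funext t
        unfold rc cf
        rw [if_pos hd.1, if_pos hd.2]
        have e2 : (ArithmeticFunction.vonMangoldt m : ℂ) *
            ((Real.sqrt m : ℂ)⁻¹ * bt T u t (Real.log m)) *
            conj ((ArithmeticFunction.vonMangoldt n : ℂ) *
              ((Real.sqrt n : ℂ)⁻¹ * bt T u t (Real.log n))) =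
            ((ArithmeticFunction.vonMangoldt m * ArithmeticFunction.vonMangoldt n /
              (Real.sqrt m * Real.sqrt n) : ℝ) : ℂ) *
              (bt T u t (Real.log m) * conj (bt T u t (Real.log n))) := by
          rw [map_mul, map_mul, map_inv₀, conj_ofReal, conj_ofReal]
          push_cast
          rw [div_eq_mul_inv, mul_inv]
          ring
        rw [e2, re_ofReal_mul]
      have hi := int_prod T u (Real.log m) (Real.log n) hT
      have hre : Integrable (fun t : ℝ =>
          (bt T u t (Real.log m) * conj (bt T u t (Real.log n))).re) := hi.re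
      rw [e1]
      refine ⟨hre.const_mul _, ?_⟩
      rw [integral_const_mul, abs_mul, abs_of_nonneg (by positivity)]
      refine mul_le_mul_of_nonneg_left ?_ (by positivity)
      have h2 : ∫ t : ℝ, (bt T u t (Real.log m) * conj (bt T u t (Real.log n))).re =
          (∫ t : ℝ, bt T u t (Real.log m) * conj (bt T u t (Real.log n))).re := integral_re hi
      rw [h2]
      exact (Complex.abs_re_le_norm _).trans (hK T u _ _ hT hl)
    · have e1 : (fun t : ℝ => (rc d (cf T u t) m * conj (rc d (cf T u t) n)).re) = fun _ => 0 := by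
        funext t
        unfold rc
        by_cases h1 : m.Coprime d
        · have h2 : ¬ n.Coprime d := fun h2 => hd ⟨h1, h2⟩
          rw [if_neg h2, map_zero, mul_zero, zero_re]
        · rw [if_neg h1, zero_mul, zero_re]
      rw [e1]
      refine ⟨integrable_zero _ _ _, ?_⟩
      rw [integral_zero, abs_zero]
      exact hnn
  · simp only [if_neg hc]
    refine ⟨integrable_zero _ _ _, ?_⟩
    rw [integral_zero, abs_zero]

end Pool.Agent.NH13.DZ.J3

namespace Pool.Agent.NH13.DZ

open Pool.Agent.NH13.DZ.J3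

theorem t_Job3 : Job3 := by
  intro hK T u d e N hT
  have hs : ∀ m ∈ Finset.Icc 1 N, ∀ n ∈ Finset.Icc 1 N, _ := fun m hm n hn =>
    summand hK T u d e m n hT (Finset.mem_Icc.1 hm).1 (Finset.mem_Icc.1 hn).1
  have hi : ∀ m ∈ Finset.Icc 1 N, Integrable (fun t : ℝ => ∑ n ∈ Finset.Icc 1 N,
      if (m : ZMod e) = (n : ZMod e) ∧ m ≠ n then
        (rc d (cf T u t) m * conj (rc d (cf T u t) n)).re else 0) := fun m hm =>
    integrable_finset_sum _ fun n hn => (hs m hm n hn).1
  unfold offd OS
  refine ⟨integrable_finset_sum _ hi, ?_⟩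
  rw [integral_finset_sum _ hi]
  refine (Finset.abs_sum_le_sum_abs _ _).trans (Finset.sum_le_sum fun m hm => ?_)
  rw [integral_finset_sum _ fun n hn => (hs m hm n hn).1]
  exact (Finset.abs_sum_le_sum_abs _ _).trans (Finset.sum_le_sum fun n hn => (hs m hm n hn).2)

end Pool.Agent.NH13.DZ
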