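import Pool.Agent.NH13.DZ.Stm

/-!
# DZ-4: the off-diagonal sum (helper72)
-/

set_option autoImplicit false

namespace Pool.Agent.NH13.DZ

namespace J4

lemma rpow_step {a : ℝ} (ha : 0 < a) {n : ℕ} (hn : 1 ≤ n) :
    ((n : ℝ) + 1) ^ (-1 - a) ≤ ((n : ℝ) ^ (-a) - ((n : ℝ) + 1) ^ (-a)) / a := by
  have hn0 : (0 : ℝ) < n := by exact_mod_cast (by omega : 0 < n)
  have hn1 : (0 : ℝ) < (n : ℝ) + 1 := by linarith
  rw [le_div_iff₀ ha]
  have h1 : ((n : ℝ) + 1) ^ (-1 - a) = ((n : ℝ) + 1) ^ (-a) / ((n : ℝ) + 1) := by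
    rw [show (-1 - a : ℝ) = -a - 1 by ring, Real.rpow_sub_one hn1.ne']
  have h2 : 1 + a / ((n : ℝ) + 1) ≤ (((n : ℝ) + 1) / n) ^ a := by
    have h3 : Real.log (((n : ℝ) + 1) / n) ≥ 1 / ((n : ℝ) + 1) := by
      have h4 := Real.one_sub_inv_le_log_of_pos (x := ((n : ℝ) + 1) / n) (by positivity)
      have h5 : 1 - (((n : ℝ) + 1) / n)⁻¹ = 1 / ((n : ℝ) + 1) := by
        field_simp
        ring
      linarith
    rw [Real.rpow_def_of_pos (by positivity)]
    have h6 := Real.add_one_le_exp (Real.log (((n : ℝ) + 1) / n) * a)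
    have h7 : a / ((n : ℝ) + 1) ≤ Real.log (((n : ℝ) + 1) / n) * a := by
      calc a / ((n : ℝ) + 1) = 1 / ((n : ℝ) + 1) * a := by ring
        _ ≤ _ := mul_le_mul_of_nonneg_right h3 ha.le
    linarith
  have h8 : (n : ℝ) ^ (-a) = ((n : ℝ) + 1) ^ (-a) * (((n : ℝ) + 1) / n) ^ a := by
    rw [Real.div_rpow hn1.le hn0.le, Real.rpow_neg hn1.le, Real.rpow_neg hn0.le]
    have : ((n : ℝ) + 1) ^ a ≠ 0 := (Real.rpow_pos_of_pos hn1 a).ne'
    have : (n : ℝ) ^ a ≠ 0 := (Real.rpow_pos_of_pos hn0 a).ne'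
    field_simp
  have h9 : 0 < ((n : ℝ) + 1) ^ (-a) := Real.rpow_pos_of_pos hn1 _
  rw [h1, h8]
  have h10 := mul_le_mul_of_nonneg_left h2 h9.le
  have h11 : ((n : ℝ) + 1) ^ (-a) / ((n : ℝ) + 1) * a =
      ((n : ℝ) + 1) ^ (-a) * (1 + a / ((n : ℝ) + 1)) - ((n : ℝ) + 1) ^ (-a) := by ring
  rw [h11]
  linarith

lemma sum_rpow_le {a : ℝ} (ha : 0 < a) (N : ℕ) :
    ∑ n ∈ Finset.Icc 1 N, (n : ℝ) ^ (-1 - a) ≤ 1 + 1 / a := by
  have h : ∀ N : ℕ, 1 ≤ N → ∑ n ∈ Finset.Icc 1 N, (n : ℝ) ^ (-1 - a) ≤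
      1 + (1 - (N : ℝ) ^ (-a)) / a := by
    intro N hN
    induction N, hN using Nat.le_induction with
    | base => simp
    | succ n hn ih =>
      rw [Finset.sum_Icc_succ_top (by omega)]
      have := rpow_step ha hn
      push_cast
      have e : (1 - ((n : ℝ) + 1) ^ (-a)) / a =
        (1 - (n : ℝ) ^ (-a)) / a + ((n : ℝ) ^ (-a) - ((n : ℝ) + 1) ^ (-a)) / a := by ring
      rw [e]
      linarith
  rcases Nat.eq_zero_or_pos N with rfl | hN
  · simp; positivity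
  · refine (h N hN).trans ?_
    have : 0 ≤ (N : ℝ) ^ (-a) := by positivity
    gcongr
    linarith

/-- the sum over one residue class -/
lemma inner {a : ℝ} (ha : 0 < a) {e : ℕ} (he : 1 ≤ e) (N n : ℕ) :
    ∑ m ∈ Finset.Icc 1 N, (if (m : ZMod e) = (n : ZMod e) ∧ n < m then
      ((m : ℝ) - n) ^ (-1 - a) else 0) ≤ (1 + 1 / a) / e := by
  classical
  have he0 : (0 : ℝ) < e := by exact_mod_cast he
  have he1 : (1 : ℝ) ≤ e := by exact_mod_cast he
  rw [← Finset.sum_filter]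
  obtain ⟨S, hS⟩ : ∃ S, S = (Finset.Icc 1 N).filter
    (fun m : ℕ => (m : ZMod e) = (n : ZMod e) ∧ n < m) := ⟨_, rfl⟩
  rw [← hS]
  have hmem : ∀ m ∈ S, m ≤ N ∧ n < m ∧ e * ((m - n) / e) = m - n := by
    intro m hm
    rw [hS, Finset.mem_filter, Finset.mem_Icc] at hm
    refine ⟨hm.1.2, hm.2.2, ?_⟩
    apply Nat.mul_div_cancel'
    rw [← Nat.modEq_iff_dvd' hm.2.2.le]
    exact ((ZMod.natCast_eq_natCast_iff _ _ _).1 hm.2.1).symm
  have h1 : ∑ m ∈ S, ((m : ℝ) - n) ^ (-1 - a) =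
      ∑ m ∈ S, ((e : ℝ) * (((m - n) / e : ℕ) : ℝ)) ^ (-1 - a) := by
    refine Finset.sum_congr rfl fun m hm => ?_
    obtain ⟨-, h2, h3⟩ := hmem m hm
    congr 1
    rw [← Nat.cast_sub h2.le, ← Nat.cast_mul, h3]
  have h2 : ∑ m ∈ S, ((e : ℝ) * (((m - n) / e : ℕ) : ℝ)) ^ (-1 - a) =
      ∑ k ∈ S.image (fun m => (m - n) / e), ((e : ℝ) * (k : ℝ)) ^ (-1 - a) := by
    rw [Finset.sum_image]
    intro m hm m' hm' hmm
    obtain ⟨-, h4, h5⟩ := hmem m hm
    obtain ⟨-, h6, h7⟩ := hmem m' hm'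
    simp only at hmm
    rw [← hmm] at h7
    omega
  have h3 : ∑ k ∈ S.image (fun m => (m - n) / e), ((e : ℝ) * (k : ℝ)) ^ (-1 - a) ≤
      ∑ k ∈ Finset.Icc 1 N, ((e : ℝ) * (k : ℝ)) ^ (-1 - a) := by
    apply Finset.sum_le_sum_of_subset_of_nonneg
    · intro k hk
      rw [Finset.mem_image] at hk
      obtain ⟨m, hm, rfl⟩ := hk
      obtain ⟨h4, h5, h6⟩ := hmem m hm
      rw [Finset.mem_Icc]
      constructor
      · rcases Nat.eq_zero_or_pos ((m - n) / e) with h7 | h7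
        · rw [h7] at h6
          omega
        · exact h7
      · exact (Nat.div_le_self _ _).trans (by omega)
    · intro k _ _
      positivity
  rw [h1, h2]
  refine h3.trans ?_
  have h4 : ∑ k ∈ Finset.Icc 1 N, ((e : ℝ) * (k : ℝ)) ^ (-1 - a) =
      (e : ℝ) ^ (-1 - a) * ∑ k ∈ Finset.Icc 1 N, (k : ℝ) ^ (-1 - a) := by
    rw [Finset.mul_sum]
    exact Finset.sum_congr rfl fun k _ => Real.mul_rpow he0.le (Nat.cast_nonneg k)
  rw [h4]
  have h5 : (e : ℝ) ^ (-1 - a) ≤ 1 / e := by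
    rw [one_div, ← Real.rpow_neg_one]
    exact Real.rpow_le_rpow_of_exponent_le he1 (by linarith)
  calc (e : ℝ) ^ (-1 - a) * ∑ k ∈ Finset.Icc 1 N, (k : ℝ) ^ (-1 - a)
      ≤ (1 / e) * (1 + 1 / a) := by
        apply mul_le_mul h5 (sum_rpow_le ha N) (Finset.sum_nonneg fun k _ => by positivity)
        positivity
    _ = (1 + 1 / a) / e := by ring

/-- the Gaussian weight against a power -/
lemma gauss {z b u : ℝ} (hz : 0 < z) :
    z ^ b * Real.exp (-(u - Real.log z) ^ 2 / 4) ≤ Real.exp (b * u + b ^ 2) := by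
  rw [Real.rpow_def_of_pos hz, ← Real.exp_add, Real.exp_le_exp]
  nlinarith [sq_nonneg ((u - Real.log z) / 2 + b)]

/-- the summands -/
noncomputable def F (u : ℝ) (m n : ℕ) : ℝ :=
  ArithmeticFunction.vonMangoldt m * ArithmeticFunction.vonMangoldt n /
        (Real.sqrt m * Real.sqrt n) *
        (Real.exp (-((u - Real.log m) ^ 2 + (u - Real.log n) ^ 2) / 4) /
          |Real.log m - Real.log n|)

lemma F_symm (u : ℝ) (m n : ℕ) : F u m n = F u n m := by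
  unfold F
  rw [abs_sub_comm, mul_comm (ArithmeticFunction.vonMangoldt m), mul_comm (Real.sqrt m),
    add_comm ((u - Real.log m) ^ 2)]

lemma bound {δ u : ℝ} (hδ : 0 < δ) (hδ1 : δ ≤ 1) {m n : ℕ} (hn : 1 ≤ n) (hnm : n < m) :
    F u m n ≤ (8 / δ) ^ 2 * Real.exp ((1 + δ / 2) * u + 2) *
      ((n : ℝ) ^ (-1 - δ / 8) * ((m : ℝ) - n) ^ (-1 - δ / 8)) := by
  unfold F
  have hΛm : ArithmeticFunction.vonMangoldt m ≤ Real.log m :=
    ArithmeticFunction.vonMangoldt_le_log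
  have hΛn : ArithmeticFunction.vonMangoldt n ≤ Real.log n :=
    ArithmeticFunction.vonMangoldt_le_log
  have hΛm0 : 0 ≤ ArithmeticFunction.vonMangoldt m := ArithmeticFunction.vonMangoldt_nonneg
  have hΛn0 : 0 ≤ ArithmeticFunction.vonMangoldt n := ArithmeticFunction.vonMangoldt_nonneg
  obtain ⟨A, hA⟩ : ∃ A : ℝ, A = ArithmeticFunction.vonMangoldt m := ⟨_, rfl⟩
  obtain ⟨B, hB⟩ : ∃ B : ℝ, B = ArithmeticFunction.vonMangoldt n := ⟨_, rfl⟩
  rw [← hA] at hΛm hΛm0 ⊢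
  rw [← hB] at hΛn hΛn0 ⊢
  have hy1 : (1 : ℝ) ≤ (n : ℝ) := by exact_mod_cast hn
  have hxy : (n : ℝ) < (m : ℝ) := by exact_mod_cast hnm
  obtain ⟨x, hx⟩ : ∃ x : ℝ, x = (m : ℝ) := ⟨_, rfl⟩
  obtain ⟨y, hy⟩ : ∃ y : ℝ, y = (n : ℝ) := ⟨_, rfl⟩
  rw [← hx] at hΛm hxy ⊢
  rw [← hy] at hΛn hxy hy1 ⊢
  have hy0 : 0 < y := by linarith
  have hx0 : 0 < x := by linarith
  have hd0 : 0 < x - y := by linarith
  obtain ⟨a, ha⟩ : ∃ a, a = δ / 8 := ⟨_, rfl⟩
  have ha0 : 0 < a := by rw [ha]; positivity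
  rw [← ha]
  have hA2 : A ≤ (8 / δ) * x ^ a := by
    refine hΛm.trans ((Real.log_le_rpow_div hx0.le ha0).trans (le_of_eq ?_))
    rw [ha]; field_simp
  have hB2 : B ≤ (8 / δ) * y ^ a := by
    refine hΛn.trans ((Real.log_le_rpow_div hy0.le ha0).trans (le_of_eq ?_))
    rw [ha]; field_simp
  have hlog : (x - y) / x ≤ Real.log x - Real.log y := by
    have h1 := Real.one_sub_inv_le_log_of_pos (x := x / y) (by positivity)
    rw [Real.log_div hx0.ne' hy0.ne'] at h1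
    have h2 : 1 - (x / y)⁻¹ = (x - y) / x := by field_simp
    linarith
  have hlog0 : 0 < Real.log x - Real.log y := lt_of_lt_of_le (by positivity) hlog
  have hinv : 1 / |Real.log x - Real.log y| ≤ x / (x - y) := by
    rw [abs_of_pos hlog0]
    exact (one_div_le_one_div_of_le (by positivity) hlog).trans (le_of_eq (one_div_div _ _))
  obtain ⟨b, hb⟩ : ∃ b, b = 1 / 2 + 2 * a := ⟨_, rfl⟩
  have hGx := gauss (z := x) (b := b) (u := u) hx0
  have hGy := gauss (z := y) (b := b) (u := u) hy0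
  obtain ⟨Gx, hGxd⟩ : ∃ G, G = Real.exp (-(u - Real.log x) ^ 2 / 4) := ⟨_, rfl⟩
  obtain ⟨Gy, hGyd⟩ : ∃ G, G = Real.exp (-(u - Real.log y) ^ 2 / 4) := ⟨_, rfl⟩
  have hGx0 : 0 < Gx := by rw [hGxd]; exact Real.exp_pos _
  have hGy0 : 0 < Gy := by rw [hGyd]; exact Real.exp_pos _
  rw [← hGxd] at hGx
  rw [← hGyd] at hGy
  have hexp : Real.exp (-((u - Real.log x) ^ 2 + (u - Real.log y) ^ 2) / 4) = Gx * Gy := by
    rw [hGxd, hGyd, ← Real.exp_add]
    congr 1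
    ring
  rw [hexp]
  have hsx : Real.sqrt x = x ^ (1 / 2 : ℝ) := Real.sqrt_eq_rpow x
  have hsy : Real.sqrt y = y ^ (1 / 2 : ℝ) := Real.sqrt_eq_rpow y
  have hsx0 : 0 < Real.sqrt x := Real.sqrt_pos.2 hx0
  have hsy0 : 0 < Real.sqrt y := Real.sqrt_pos.2 hy0
  have hx1 : x ^ a / Real.sqrt x * x = x ^ b * x ^ (-a) := by
    rw [hsx, ← Real.rpow_sub hx0, ← Real.rpow_add hx0]
    nth_rw 2 [← Real.rpow_one x]
    rw [← Real.rpow_add hx0]
    congr 1
    rw [hb]; ring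
  have hy2 : y ^ a / Real.sqrt y = y ^ b * y ^ (-1 - a) := by
    rw [hsy, ← Real.rpow_sub hy0, ← Real.rpow_add hy0]
    congr 1
    rw [hb]; ring
  have hxa : x ^ (-a) ≤ (x - y) ^ (-a) :=
    Real.rpow_le_rpow_of_nonpos hd0 (by linarith) (by linarith)
  calc A * B / (Real.sqrt x * Real.sqrt y) * (Gx * Gy / |Real.log x - Real.log y|)
      = (A * B) * ((Real.sqrt x * Real.sqrt y)⁻¹ * (Gx * Gy) *
          (1 / |Real.log x - Real.log y|)) := by ring
    _ ≤ ((8 / δ * x ^ a) * (8 / δ * y ^ a)) * ((Real.sqrt x * Real.sqrt y)⁻¹ * (Gx * Gy) *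
          (x / (x - y))) := by
        apply mul_le_mul
        · exact mul_le_mul hA2 hB2 hΛn0 (by positivity)
        · exact mul_le_mul_of_nonneg_left hinv (by positivity)
        · positivity
        · positivity
    _ = (8 / δ) ^ 2 * ((x ^ a / Real.sqrt x * x) * Gx) * ((y ^ a / Real.sqrt y) * Gy) *
          (x - y)⁻¹ := by
        field_simp
    _ = (8 / δ) ^ 2 * ((x ^ b * Gx) * x ^ (-a)) * ((y ^ b * Gy) * y ^ (-1 - a)) * (x - y)⁻¹ := by
        rw [hx1, hy2]; ring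
    _ ≤ (8 / δ) ^ 2 * (Real.exp (b * u + b ^ 2) * (x - y) ^ (-a)) *
          (Real.exp (b * u + b ^ 2) * y ^ (-1 - a)) * (x - y)⁻¹ := by
        gcongr
    _ = (8 / δ) ^ 2 * Real.exp (2 * (b * u + b ^ 2)) *
          (y ^ (-1 - a) * (x - y) ^ (-1 - a)) := by
        have hE : Real.exp (2 * (b * u + b ^ 2)) =
            Real.exp (b * u + b ^ 2) * Real.exp (b * u + b ^ 2) := by
          rw [← Real.exp_add]
          congr 1
          ring
        have hD : (x - y) ^ (-1 - a) = (x - y) ^ (-a) * (x - y)⁻¹ := by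
          rw [← Real.rpow_neg_one (x - y), ← Real.rpow_add hd0]
          congr 1
          ring
        obtain ⟨E1, hE1⟩ : ∃ E1 : ℝ, E1 = Real.exp (b * u + b ^ 2) := ⟨_, rfl⟩
        obtain ⟨E2, hE2⟩ : ∃ E2 : ℝ, E2 = Real.exp (2 * (b * u + b ^ 2)) := ⟨_, rfl⟩
        rw [← hE1, ← hE2] at hE
        rw [← hE1, ← hE2, hE, hD]
        ring
    _ ≤ (8 / δ) ^ 2 * Real.exp ((1 + δ / 2) * u + 2) *
          (y ^ (-1 - a) * (x - y) ^ (-1 - a)) := by
        apply mul_le_mul_of_nonneg_right _ (by positivity)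
        apply mul_le_mul_of_nonneg_left _ (by positivity)
        rw [Real.exp_le_exp, hb, ha]
        nlinarith

end J4

open J4 in
theorem t_OffSum : OffSum := by
  classical
  intro δ hδ hδ1
  refine ⟨2 * (8 / δ) ^ 2 * Real.exp 2 * (1 + 1 / (δ / 8)) ^ 2, by positivity,
    fun e N u he hu => ?_⟩
  have he0 : (0 : ℝ) < e := by exact_mod_cast he
  have ha0 : 0 < δ / 8 := by positivity
  -- symmetry
  have h1 : OS e N u = 2 * ∑ n ∈ Finset.Icc 1 N, ∑ m ∈ Finset.Icc 1 N,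
      (if (m : ZMod e) = (n : ZMod e) ∧ n < m then F u m n else 0) := by
    have h2 : OS e N u = ∑ m ∈ Finset.Icc 1 N, ∑ n ∈ Finset.Icc 1 N,
        ((if (m : ZMod e) = (n : ZMod e) ∧ n < m then F u m n else 0) +
        (if (n : ZMod e) = (m : ZMod e) ∧ m < n then F u n m else 0)) := by
      unfold OS
      refine Finset.sum_congr rfl fun m _ => Finset.sum_congr rfl fun n _ => ?_
      change (if (m : ZMod e) = (n : ZMod e) ∧ m ≠ n then F u m n else 0) = _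
      by_cases hmn : (m : ZMod e) = (n : ZMod e)
      · rcases lt_trichotomy m n with h | h | h
        · rw [if_pos ⟨hmn, h.ne⟩, if_neg (fun h' => absurd h'.2 (by omega)),
            if_pos ⟨hmn.symm, h⟩, zero_add, F_symm]
        · subst h
          simp
        · rw [if_pos ⟨hmn, h.ne'⟩, if_pos ⟨hmn, h⟩, if_neg (fun h' => absurd h'.2 (by omega)),
            add_zero]
      · rw [if_neg (fun h' => hmn h'.1), if_neg (fun h' => hmn h'.1),
          if_neg (fun h' => hmn h'.1.symm), add_zero]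
    rw [h2]
    simp only [Finset.sum_add_distrib]
    rw [Finset.sum_comm, two_mul]
  have h3 : ∑ n ∈ Finset.Icc 1 N, ∑ m ∈ Finset.Icc 1 N,
      (if (m : ZMod e) = (n : ZMod e) ∧ n < m then F u m n else 0) ≤
      (8 / δ) ^ 2 * Real.exp ((1 + δ / 2) * u + 2) * ((1 + 1 / (δ / 8)) *
        ((1 + 1 / (δ / 8)) / e)) := by
    calc _ ≤ ∑ n ∈ Finset.Icc 1 N, (8 / δ) ^ 2 * Real.exp ((1 + δ / 2) * u + 2) *
          ((n : ℝ) ^ (-1 - δ / 8) * ((1 + 1 / (δ / 8)) / e)) := by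
          refine Finset.sum_le_sum fun n hn => ?_
          have hn1 : 1 ≤ n := (Finset.mem_Icc.1 hn).1
          calc _ ≤ ∑ m ∈ Finset.Icc 1 N, (8 / δ) ^ 2 * Real.exp ((1 + δ / 2) * u + 2) *
                ((n : ℝ) ^ (-1 - δ / 8) * (if (m : ZMod e) = (n : ZMod e) ∧ n < m then
                  ((m : ℝ) - n) ^ (-1 - δ / 8) else 0)) := by
                refine Finset.sum_le_sum fun m _ => ?_
                split_ifs with h
                · exact bound hδ hδ1 hn1 h.2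
                · simp
            _ = (8 / δ) ^ 2 * Real.exp ((1 + δ / 2) * u + 2) * ((n : ℝ) ^ (-1 - δ / 8) *
                ∑ m ∈ Finset.Icc 1 N, (if (m : ZMod e) = (n : ZMod e) ∧ n < m then
                  ((m : ℝ) - n) ^ (-1 - δ / 8) else 0)) := by
                rw [Finset.mul_sum, Finset.mul_sum]
            _ ≤ _ := by
                apply mul_le_mul_of_nonneg_left _ (by positivity)
                exact mul_le_mul_of_nonneg_left (inner ha0 he N n) (by positivity)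
      _ = (8 / δ) ^ 2 * Real.exp ((1 + δ / 2) * u + 2) *
          ((∑ n ∈ Finset.Icc 1 N, (n : ℝ) ^ (-1 - δ / 8)) * ((1 + 1 / (δ / 8)) / e)) := by
          rw [Finset.sum_mul, Finset.mul_sum]
      _ ≤ _ := by
          apply mul_le_mul_of_nonneg_left _ (by positivity)
          exact mul_le_mul_of_nonneg_right (sum_rpow_le ha0 N) (by positivity)
  rw [h1]
  have h4 : Real.exp ((1 + δ / 2) * u + 2) ≤ Real.exp ((1 + δ) * u) * Real.exp 2 := by
    rw [← Real.exp_add, Real.exp_le_exp]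
    nlinarith
  calc (e : ℝ) * (2 * ∑ n ∈ Finset.Icc 1 N, ∑ m ∈ Finset.Icc 1 N,
        (if (m : ZMod e) = (n : ZMod e) ∧ n < m then F u m n else 0))
      ≤ (e : ℝ) * (2 * ((8 / δ) ^ 2 * Real.exp ((1 + δ / 2) * u + 2) * ((1 + 1 / (δ / 8)) *
        ((1 + 1 / (δ / 8)) / e)))) := by gcongr
    _ = 2 * (8 / δ) ^ 2 * (1 + 1 / (δ / 8)) ^ 2 * Real.exp ((1 + δ / 2) * u + 2) := by
        field_simp
    _ ≤ 2 * (8 / δ) ^ 2 * (1 + 1 / (δ / 8)) ^ 2 * (Real.exp ((1 + δ) * u) * Real.exp 2) :=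
        mul_le_mul_of_nonneg_left h4 (by positivity)
    _ = _ := by ring

end Pool.Agent.NH13.DZ
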