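import Pool.Agent.NH13.DZ.Stm

/-!
# The bound for the finite sums (job 5)
-/

set_option autoImplicit false

open Complex MeasureTheory Set Filter Topology ComplexConjugate

namespace Pool.Agent.NH13.DZ

namespace J5

lemma rc_norm_le (d : ℕ) (c : ℕ → ℂ) (n : ℕ) : ‖rc d c n‖ ^ 2 ≤ ‖c n‖ ^ 2 := by
  unfold rc
  split_ifs with h
  · exact le_refl _
  · simp

lemma rc_int (d : ℕ) (T u : ℝ) (n : ℕ)
    (h : Integrable (fun t : ℝ => ‖cf T u t n‖ ^ 2)) :
    Integrable (fun t : ℝ => ‖rc d (cf T u t) n‖ ^ 2) := by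
  unfold rc
  split_ifs with h'
  · exact h
  · simp

lemma OS_nonneg (e N : ℕ) (u : ℝ) : 0 ≤ OS e N u := by
  unfold OS
  refine Finset.sum_nonneg fun m _ => Finset.sum_nonneg fun n _ => ?_
  split_ifs
  · have h1 : (0 : ℝ) ≤ ArithmeticFunction.vonMangoldt m := ArithmeticFunction.vonMangoldt_nonneg
    have h2 : (0 : ℝ) ≤ ArithmeticFunction.vonMangoldt n := ArithmeticFunction.vonMangoldt_nonneg
    positivity
  · exact le_refl _

lemma mu_abs (n : ℕ) : |((ArithmeticFunction.moebius n : ℤ) : ℝ)| ≤ 1 := by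
  exact_mod_cast ArithmeticFunction.abs_moebius_le_one

end J5

theorem t_Job5 : Job5 := by
  intro hP hI hO hB δ hδ hδ1
  obtain ⟨C1, hC1, hO⟩ := hO δ hδ hδ1
  obtain ⟨C2, hC2, hB⟩ := hB
  refine ⟨max C1 C2, lt_max_of_lt_left hC1, ?_⟩
  intro q _ T κ u N hκ hT hTκ hu
  have hT0 : (0 : ℝ) ≤ T := by linarith
  obtain ⟨hBi, hBb⟩ := hB T κ u N hκ hT hTκ hu
  have hrci : ∀ n, Integrable (fun t : ℝ => ‖rc q (cf T u t) n‖ ^ 2) :=
    fun n => J5.rc_int q T u n (hBi n)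
  have hsi : Integrable (fun t : ℝ => ∑ n ∈ Finset.Icc 1 N, ‖rc q (cf T u t) n‖ ^ 2) :=
    integrable_finset_sum _ fun n _ => hrci n
  have hsi' : Integrable (fun t : ℝ => ∑ n ∈ Finset.Icc 1 N, ‖cf T u t n‖ ^ 2) :=
    integrable_finset_sum _ fun n _ => hBi n
  have hoi : ∀ x : ℕ × ℕ, Integrable (fun t : ℝ => ((ArithmeticFunction.moebius x.1 : ℤ) : ℝ) *
      ((x.2.totient : ℝ) * offd q x.2 (cf T u t) N)) :=
    fun x => ((hI T u q x.2 N hT0).1.const_mul _).const_mul _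
  have h1 : ∫ t : ℝ, ∑ χ ∈ PrimS q, ‖∑ n ∈ Finset.Icc 1 N, cf T u t n * χ (n : ZMod q)‖ ^ 2 =
      (phs q : ℝ) * (∫ t : ℝ, ∑ n ∈ Finset.Icc 1 N, ‖rc q (cf T u t) n‖ ^ 2) +
      ∑ x ∈ q.divisorsAntidiagonal, ((ArithmeticFunction.moebius x.1 : ℤ) : ℝ) *
        ((x.2.totient : ℝ) * ∫ t : ℝ, offd q x.2 (cf T u t) N) := by
    have h2 : (fun t : ℝ => ∑ χ ∈ PrimS q,
        ‖∑ n ∈ Finset.Icc 1 N, cf T u t n * χ (n : ZMod q)‖ ^ 2) =
        fun t : ℝ => (phs q : ℝ) * (∑ n ∈ Finset.Icc 1 N, ‖rc q (cf T u t) n‖ ^ 2) +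
          ∑ x ∈ q.divisorsAntidiagonal, ((ArithmeticFunction.moebius x.1 : ℤ) : ℝ) *
            ((x.2.totient : ℝ) * offd q x.2 (cf T u t) N) := by
      funext t
      exact hP q (cf T u t) N
    rw [h2, integral_add (hsi.const_mul _) (integrable_finset_sum _ fun x _ => hoi x),
      integral_const_mul, integral_finset_sum _ fun x _ => hoi x]
    congr 1
    refine Finset.sum_congr rfl fun x _ => ?_
    rw [integral_const_mul, integral_const_mul]
  have h3 : ∫ t : ℝ, ∑ n ∈ Finset.Icc 1 N, ‖rc q (cf T u t) n‖ ^ 2 ≤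
      T / (2 * Real.pi) * S1 u + max C1 C2 * κ * (u + 1) := by
    refine (integral_mono hsi hsi' fun t => ?_).trans (hBb.trans ?_)
    · exact Finset.sum_le_sum fun n _ => J5.rc_norm_le _ _ _
    · have : C2 * κ * (u + 1) ≤ max C1 C2 * κ * (u + 1) := by
        have := le_max_right C1 C2
        gcongr
      linarith
  have h4 : ∑ x ∈ q.divisorsAntidiagonal, ((ArithmeticFunction.moebius x.1 : ℤ) : ℝ) *
        ((x.2.totient : ℝ) * ∫ t : ℝ, offd q x.2 (cf T u t) N) ≤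
      max C1 C2 * (q.divisors.card : ℝ) * Real.exp ((1 + δ) * u) := by
    have h5 : ∀ x ∈ q.divisorsAntidiagonal, ((ArithmeticFunction.moebius x.1 : ℤ) : ℝ) *
        ((x.2.totient : ℝ) * ∫ t : ℝ, offd q x.2 (cf T u t) N) ≤
        max C1 C2 * Real.exp ((1 + δ) * u) := by
      intro x hx
      rw [Nat.mem_divisorsAntidiagonal] at hx
      have hx2 : 1 ≤ x.2 := by
        rcases Nat.eq_zero_or_pos x.2 with h | h
        · exfalso; apply hx.2; rw [← hx.1, h, mul_zero]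
        · exact h
      have h6 : (x.2.totient : ℝ) ≤ x.2 := by exact_mod_cast Nat.totient_le x.2
      have h7 := (hI T u q x.2 N hT0).2
      have h8 := hO x.2 N u hx2 hu
      have h9 := J5.OS_nonneg x.2 N u
      calc ((ArithmeticFunction.moebius x.1 : ℤ) : ℝ) *
          ((x.2.totient : ℝ) * ∫ t : ℝ, offd q x.2 (cf T u t) N)
          ≤ |((ArithmeticFunction.moebius x.1 : ℤ) : ℝ) *
            ((x.2.totient : ℝ) * ∫ t : ℝ, offd q x.2 (cf T u t) N)| := le_abs_self _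
        _ = |((ArithmeticFunction.moebius x.1 : ℤ) : ℝ)| *
            ((x.2.totient : ℝ) * |∫ t : ℝ, offd q x.2 (cf T u t) N|) := by
            rw [abs_mul, abs_mul, abs_of_nonneg (Nat.cast_nonneg _ : (0 : ℝ) ≤ (x.2.totient : ℝ))]
        _ ≤ 1 * ((x.2 : ℝ) * OS x.2 N u) := by
            refine mul_le_mul (J5.mu_abs _) ?_ (by positivity) zero_le_one
            exact mul_le_mul h6 h7 (abs_nonneg _) (Nat.cast_nonneg _)
        _ ≤ C1 * Real.exp ((1 + δ) * u) := by rw [one_mul]; exact h8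
        _ ≤ max C1 C2 * Real.exp ((1 + δ) * u) := by
            have := le_max_left C1 C2
            gcongr
    refine (Finset.sum_le_sum h5).trans ?_
    rw [Finset.sum_const, nsmul_eq_mul, ← Nat.map_div_right_divisors, Finset.card_map]
    exact le_of_eq (by ring)
  rw [h1]
  have h10 := mul_le_mul_of_nonneg_left h3 (Nat.cast_nonneg (phs q) : (0 : ℝ) ≤ phs q)
  linarith

end Pool.Agent.NH13.DZ
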