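import Pool.Agent.NH13.DZ.Stm
import Pool.Agent.H385R2.Cut

/-!
# From finite to infinite sums (DZ-6)
-/

set_option autoImplicit false

open Complex MeasureTheory Set Filter Topology ComplexConjugate

namespace Pool.Agent.NH13.DZ

namespace J6

open H385

/-- the dominating terms -/
noncomputable def dm (u : ℝ) (n : ℕ) : ℝ :=
  ArithmeticFunction.vonMangoldt n * ((Real.sqrt n)⁻¹ *
    (1 / Real.sqrt (2 * Real.pi) * Real.exp (-(u - Real.log n) ^ 2 / 4)))

theorem gauss (u : ℝ) (n : ℕ) : Real.exp (-(u - Real.log n) ^ 2 / 4) ≤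
    Real.exp (3 * |u| + 16) * ((n : ℝ) ^ 3)⁻¹ ∨ n = 0 := by
  rcases Nat.eq_zero_or_pos n with h | h
  · right; exact h
  left
  have hn : (0 : ℝ) < n := by exact_mod_cast h
  have : ((n : ℝ) ^ 3)⁻¹ = Real.exp (-(3 * Real.log n)) := by
    rw [Real.exp_neg]
    congr 1
    rw [mul_comm, Real.exp_mul, Real.exp_log hn]
    norm_cast
  rw [this, ← Real.exp_add]
  apply Real.exp_le_exp.mpr
  have h1 : u ≤ |u| := le_abs_self u
  nlinarith [sq_nonneg (Real.log n - u - 6)]

theorem dm_nonneg (u : ℝ) (n : ℕ) : 0 ≤ dm u n := by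
  unfold dm
  have := @ArithmeticFunction.vonMangoldt_nonneg n
  positivity

theorem dm_summable (u : ℝ) : Summable (dm u) := by
  have hs : Summable (fun n : ℕ => Real.exp (3 * |u| + 16) * ((n : ℝ) ^ 2)⁻¹) :=
    (Real.summable_nat_pow_inv.mpr (by norm_num)).mul_left _
  refine Summable.of_nonneg_of_le (dm_nonneg u) ?_ hs
  intro n
  unfold dm
  rcases gauss u n with h | h
  swap
  · subst h; simp
  rcases Nat.eq_zero_or_pos n with hn0 | hn0
  · subst hn0; simp
  have hn : (1 : ℝ) ≤ n := by exact_mod_cast hn0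
  have h1 : ArithmeticFunction.vonMangoldt n ≤ (n : ℝ) :=
    ArithmeticFunction.vonMangoldt_le_log.trans
      ((Real.log_le_sub_one_of_pos (by linarith)).trans (by linarith))
  have h2 : (Real.sqrt n)⁻¹ ≤ 1 := by
    apply inv_le_one_of_one_le₀
    rw [Real.one_le_sqrt]; exact hn
  have h3 : 1 / Real.sqrt (2 * Real.pi) ≤ 1 := by
    rw [div_le_one (by positivity), Real.one_le_sqrt]
    linarith [Real.pi_gt_three]
  calc ArithmeticFunction.vonMangoldt n * ((Real.sqrt n)⁻¹ *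
    (1 / Real.sqrt (2 * Real.pi) * Real.exp (-(u - Real.log n) ^ 2 / 4)))
      ≤ (n : ℝ) * (1 * (1 * (Real.exp (3 * |u| + 16) * ((n : ℝ) ^ 3)⁻¹))) := by
        gcongr
    _ = Real.exp (3 * |u| + 16) * ((n : ℝ) ^ 2)⁻¹ := by
        field_simp

theorem cf_bound (T u t : ℝ) (hT : 0 ≤ T) (n : ℕ) : ‖cf T u t n‖ ≤ dm u n * wt T t := by
  unfold cf dm
  rw [norm_mul, norm_mul, norm_inv, Complex.norm_real, Real.norm_eq_abs, Complex.norm_real,
    Real.norm_eq_abs, abs_of_nonneg (Real.sqrt_nonneg _),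
    abs_of_nonneg ArithmeticFunction.vonMangoldt_nonneg]
  have h1 := bt_norm T u t (Real.log n) hT
  have h2 := wt_nonneg T t hT
  have h3 := @ArithmeticFunction.vonMangoldt_nonneg n
  calc ArithmeticFunction.vonMangoldt n * ((Real.sqrt n)⁻¹ * ‖bt T u t (Real.log n)‖) ≤
      ArithmeticFunction.vonMangoldt n * ((Real.sqrt n)⁻¹ *
        (1 / Real.sqrt (2 * Real.pi) * Real.exp (-(u - Real.log n) ^ 2 / 4) * wt T t)) := by
        gcongr
    _ = _ := by ring

theorem cf_cont (T u : ℝ) (n : ℕ) : Continuous (fun t : ℝ => cf T u t n) := by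
  unfold cf
  have h0 := bt_cont T (Real.log n)
  have h1 : Continuous (fun t : ℝ => ((u, t) : ℝ × ℝ)) := by fun_prop
  have h2 := h0.comp h1
  exact continuous_const.mul (continuous_const.mul h2)

theorem term_bound {q : ℕ} (χ : DirichletCharacter ℂ q) (T u t : ℝ) (hT : 0 ≤ T) (n : ℕ) :
    ‖cf T u t n * χ (n : ZMod q)‖ ≤ dm u n * wt T t := by
  rw [norm_mul]
  calc ‖cf T u t n‖ * ‖χ (n : ZMod q)‖ ≤ (dm u n * wt T t) * 1 :=
        mul_le_mul (cf_bound T u t hT n) (DirichletCharacter.norm_le_one χ _) (norm_nonneg _)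
          (mul_nonneg (dm_nonneg u n) (wt_nonneg T t hT))
    _ = _ := mul_one _

theorem term_summable {q : ℕ} (χ : DirichletCharacter ℂ q) (T u t : ℝ) (hT : 0 ≤ T) :
    Summable (fun n : ℕ => cf T u t n * χ (n : ZMod q)) :=
  Summable.of_norm_bounded ((dm_summable u).mul_right (wt T t)) (term_bound χ T u t hT)

theorem sum_bound {q : ℕ} (χ : DirichletCharacter ℂ q) (T u t : ℝ) (hT : 0 ≤ T) (N : ℕ) :
    ‖∑ n ∈ Finset.Icc 1 N, cf T u t n * χ (n : ZMod q)‖ ≤ (∑' n, dm u n) * wt T t := by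
  refine (norm_sum_le _ _).trans ?_
  refine (Finset.sum_le_sum fun n _ => term_bound χ T u t hT n).trans ?_
  rw [← Finset.sum_mul]
  exact mul_le_mul_of_nonneg_right ((dm_summable u).sum_le_tsum _ fun n _ => dm_nonneg u n)
    (wt_nonneg T t hT)

theorem sum_tendsto {q : ℕ} (χ : DirichletCharacter ℂ q) (T u t : ℝ) (hT : 0 ≤ T) :
    Tendsto (fun N : ℕ => ∑ n ∈ Finset.Icc 1 N, cf T u t n * χ (n : ZMod q)) atTop
      (𝓝 (∑' n : ℕ, (χ (n : ZMod q) * (ArithmeticFunction.vonMangoldt n : ℂ)) *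
        ((Real.sqrt n : ℂ)⁻¹ * bt T u t (Real.log n)))) := by
  have e : (fun n : ℕ => (χ (n : ZMod q) * (ArithmeticFunction.vonMangoldt n : ℂ)) *
        ((Real.sqrt n : ℂ)⁻¹ * bt T u t (Real.log n))) =
      fun n : ℕ => cf T u t n * χ (n : ZMod q) := by
    funext n
    unfold cf
    ring
  rw [e]
  have h1 := ((term_summable χ T u t hT).hasSum.tendsto_sum_nat).comp (tendsto_add_atTop_nat 1)
  refine h1.congr fun N => ?_
  simp only [Function.comp_apply]
  symm
  refine Finset.sum_subset ?_ ?_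
  · intro n hn
    rw [Finset.mem_Icc] at hn
    rw [Finset.mem_range]
    omega
  · intro n hn hn'
    rw [Finset.mem_Icc] at hn'
    rw [Finset.mem_range] at hn
    have h0 : n = 0 := by omega
    subst h0
    simp [cf]

end J6

open J6 H385 in
theorem t_Job6 : Job6 := by
  intro hF δ h0 h1
  obtain ⟨C, hC, hb⟩ := hF δ h0 h1
  refine ⟨C, hC, ?_⟩
  intro q _ T κ u hκ hT hTκ hu
  have hT0 : 0 ≤ T := by linarith
  obtain ⟨C', -, hw⟩ := wt_sq_int
  have hwi := (hw T hT0).1
  refine le_of_tendsto' (x := atTop) (f := fun N : ℕ => ∫ t : ℝ, ∑ χ ∈ PrimS q,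
    ‖∑ n ∈ Finset.Icc 1 N, cf T u t n * χ (n : ZMod q)‖ ^ 2) ?_
    fun N : ℕ => hb q T κ u N hκ hT hTκ hu
  refine tendsto_integral_of_dominated_convergence
    (fun t => ((PrimS q).card : ℝ) * ((∑' n, dm u n) ^ 2 * wt T t ^ 2)) ?_ ?_ ?_ ?_
  · intro N
    refine Continuous.aestronglyMeasurable ?_
    refine continuous_finsetSum _ fun χ _ => Continuous.pow (Continuous.norm ?_) 2
    exact continuous_finsetSum _ fun n _ => (cf_cont T u n).mul continuous_const
  · exact (hwi.const_mul _).const_mul _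
  · intro N
    refine Eventually.of_forall fun t => ?_
    rw [Real.norm_eq_abs, abs_of_nonneg (Finset.sum_nonneg fun χ _ => sq_nonneg _)]
    rw [← nsmul_eq_mul, ← Finset.sum_const]
    refine Finset.sum_le_sum fun χ _ => ?_
    rw [← mul_pow]
    exact pow_le_pow_left₀ (norm_nonneg _) (sum_bound χ T u t hT0 N) 2
  · refine Eventually.of_forall fun t => ?_
    refine tendsto_finsetSum _ fun χ _ => ?_
    exact ((sum_tendsto χ T u t hT0).norm).pow 2

end Pool.Agent.NH13.DZ
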