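import Pool.Agent.NH13.DZ.Stm
import Pool.Agent.H385R2.PrimMass

/-!
# DZ-7: a lower bound for the number of primitive characters
-/

set_option autoImplicit false

namespace Pool.Agent.NH13.DZ

namespace J7

theorem sum_phs (n : ℕ) (hn : 0 < n) : ∑ d ∈ n.divisors, phs d = Nat.totient n :=
  H385.sum_phs n hn

/-- the totient function with values in `ℤ` -/
noncomputable def aft : ArithmeticFunction ℤ := ⟨fun n => (Nat.totient n : ℤ), by simp⟩

theorem aft_mult : aft.IsMultiplicative := by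
  refine ⟨?_, ?_⟩
  · change ((Nat.totient 1 : ℕ) : ℤ) = 1
    simp
  · intro m n hmn
    change ((Nat.totient (m * n) : ℕ) : ℤ) = (Nat.totient m : ℤ) * (Nat.totient n : ℤ)
    rw [Nat.totient_mul hmn]
    push_cast
    rfl

theorem phs_eq (n : ℕ) (hn : 0 < n) : (phs n : ℤ) = (ArithmeticFunction.moebius * aft) n := by
  have h : ∀ n > 0, ∑ i ∈ n.divisors, ((phs i : ℕ) : ℤ) = ((Nat.totient n : ℕ) : ℤ) := by
    intro n hn
    rw [← sum_phs n hn]
    push_cast
    rfl
  have h1 := (ArithmeticFunction.sum_eq_iff_sum_mul_moebius_eq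
    (f := fun i => ((phs i : ℕ) : ℤ)) (g := fun n => ((Nat.totient n : ℕ) : ℤ))).mp h n hn
  rw [← h1, ArithmeticFunction.mul_apply]
  rfl

theorem phs_mul {a b : ℕ} (ha : 0 < a) (hb : 0 < b) (hab : a.Coprime b) :
    phs (a * b) = phs a * phs b := by
  have h := (ArithmeticFunction.isMultiplicative_moebius.mul aft_mult).map_mul_of_coprime hab
  rw [← phs_eq _ (Nat.mul_pos ha hb), ← phs_eq _ ha, ← phs_eq _ hb] at h
  exact_mod_cast h

theorem phs_pow {p : ℕ} (hp : p.Prime) (k : ℕ) :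
    phs (p ^ (k + 1)) + Nat.totient (p ^ k) = Nat.totient (p ^ (k + 1)) := by
  have h1 := sum_phs (p ^ (k + 1)) (pow_pos hp.pos _)
  have h2 := sum_phs (p ^ k) (pow_pos hp.pos _)
  rw [Nat.sum_divisors_prime_pow hp] at h1 h2
  rw [Finset.sum_range_succ, h2] at h1
  omega

theorem prime_pow {p : ℕ} (hp : p.Prime) (k : ℕ) (hk : 0 < k) (h0 : phs (p ^ k) ≠ 0) :
    p ^ k ≤ phs (p ^ k) * (p ^ k).divisors.card ^ 2 := by
  obtain ⟨n, rfl⟩ : ∃ n, k = n + 1 := ⟨k - 1, by omega⟩
  obtain ⟨a, rfl⟩ : ∃ a, p = a + 2 := ⟨p - 2, by have := hp.two_le; omega⟩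
  have hd : ((a + 2) ^ (n + 1)).divisors.card = n + 2 := by
    rw [Nat.divisors_prime_pow hp, Finset.card_map, Finset.card_range]
  have h1 := phs_pow hp n
  rw [Nat.totient_prime_pow_succ hp] at h1
  rw [hd]
  rcases n with _ | m
  · simp only [Nat.zero_add, pow_zero, pow_one, one_mul, Nat.totient_one] at h1 h0 ⊢
    have h2 : phs (a + 2) = a := by omega
    rw [h2] at h0 ⊢
    omega
  · rw [Nat.totient_prime_pow_succ hp] at h1
    have h3 : a + 2 - 1 = a + 1 := by omega
    rw [h3] at h1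
    have h2 : phs ((a + 2) ^ (m + 1 + 1)) = (a + 2) ^ m * (a + 1) ^ 2 := by
      have h4 : (a + 2) ^ (m + 1) * (a + 1) = (a + 2) ^ m * (a + 1) ^ 2 + (a + 2) ^ m * (a + 1) := by
        ring
      omega
    rw [h2]
    calc (a + 2) ^ (m + 1 + 1) = (a + 2) ^ m * (a + 2) ^ 2 := by ring
      _ ≤ (a + 2) ^ m * ((a + 1) ^ 2 * 3 ^ 2) := by
          apply Nat.mul_le_mul_left
          nlinarith
      _ = (a + 2) ^ m * (a + 1) ^ 2 * 3 ^ 2 := by ring
      _ ≤ (a + 2) ^ m * (a + 1) ^ 2 * (m + 1 + 2) ^ 2 := by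
          apply Nat.mul_le_mul_left
          apply Nat.pow_le_pow_left
          omega

end J7

open J7 in
theorem t_PhsLow : PhsLow := by
  intro q
  induction q using Nat.recOnPosPrimePosCoprime with
  | zero => intro h; omega
  | one =>
    intro _ h0
    simp only [Nat.divisors_one, Finset.card_singleton, one_pow, mul_one]
    omega
  | prime_pow p n hp hn => intro _ h0; exact J7.prime_pow hp n hn h0
  | coprime a b ha hb hab iha ihb =>
    intro _ h0
    rw [phs_mul (by omega) (by omega) hab] at h0 ⊢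
    obtain ⟨h1, h2⟩ := Nat.mul_ne_zero_iff.1 h0
    have h3 := iha (by omega) h1
    have h4 := ihb (by omega) h2
    rw [hab.card_divisors_mul]
    calc a * b ≤ (phs a * a.divisors.card ^ 2) * (phs b * b.divisors.card ^ 2) :=
          Nat.mul_le_mul h3 h4
      _ = _ := by ring

end Pool.Agent.NH13.DZ
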