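import Pool.Agent.NH13.DZ.Stm
import Pool.Agent.H353R2.Z2

/-!
# DZ-8: the off-diagonal part is small
-/

set_option autoImplicit false

namespace Pool.Agent.NH13.DZ

namespace J8

theorem key (β δ C ε C1 : ℝ) (hδ : 0 < δ) (hβδ : (1 + δ) * β ≤ 1 - δ) (hC : 0 < C) (hε : 0 < ε)
    (hC1 : 0 < C1) (hdiv : ∀ n : ℕ, n ≠ 0 → (n.divisors.card : ℝ) ≤ C1 * (n : ℝ) ^ (δ / 3))
    (hP : PhsLow) (q : ℕ) (T : ℝ) (hq : 1 ≤ q) (hT1 : 1 ≤ T)
    (hTK : (C * C1 ^ 3 / ε) ^ (1 / δ) ≤ T) (hphs : phs q ≠ 0) :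
    C * (q.divisors.card : ℝ) * Real.exp ((1 + δ) * (β * Real.log (q * T))) ≤
      ε * ((phs q : ℝ) * T) := by
  have hq1 : (1 : ℝ) ≤ (q : ℝ) := by exact_mod_cast hq
  have hq0 : (0 : ℝ) < (q : ℝ) := by linarith
  have hT0 : 0 < T := by linarith
  have hqT1 : 1 ≤ (q : ℝ) * T := by nlinarith
  have hqT0 : 0 < (q : ℝ) * T := by positivity
  have hlog : 0 ≤ Real.log (q * T) := Real.log_nonneg hqT1
  set d : ℝ := (q.divisors.card : ℝ) with hd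
  have hd0 : 0 ≤ d := by positivity
  have hdd : d ≤ C1 * (q : ℝ) ^ (δ / 3) := hdiv q (by omega)
  have hd3 : d ^ 3 ≤ C1 ^ 3 * (q : ℝ) ^ δ := by
    have h1 : d ^ 3 ≤ (C1 * (q : ℝ) ^ (δ / 3)) ^ 3 := pow_le_pow_left₀ hd0 hdd 3
    have h2 : (C1 * (q : ℝ) ^ (δ / 3)) ^ 3 = C1 ^ 3 * (q : ℝ) ^ δ := by
      rw [mul_pow, ← Real.rpow_natCast ((q : ℝ) ^ (δ / 3)) 3, ← Real.rpow_mul hq0.le]
      congr 2
      push_cast
      ring
    rw [← h2]; exact h1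
  have hexp : Real.exp ((1 + δ) * (β * Real.log (q * T))) ≤
      ((q : ℝ) / (q : ℝ) ^ δ) * (T / T ^ δ) := by
    have h1 : (1 + δ) * (β * Real.log (q * T)) ≤ (1 - δ) * Real.log (q * T) := by
      have := mul_le_mul_of_nonneg_right hβδ hlog
      linarith [this, mul_assoc (1 + δ) β (Real.log (q * T))]
    have h2 : Real.exp ((1 - δ) * Real.log (q * T)) = ((q : ℝ) / (q : ℝ) ^ δ) * (T / T ^ δ) := by
      have h3 : Real.exp ((1 - δ) * Real.log (q * T)) = ((q : ℝ) * T) ^ (1 - δ) := by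
        rw [Real.rpow_def_of_pos hqT0]; ring_nf
      rw [h3, Real.mul_rpow hq0.le hT0.le, Real.rpow_sub hq0, Real.rpow_sub hT0, Real.rpow_one,
        Real.rpow_one]
    calc Real.exp ((1 + δ) * (β * Real.log (q * T)))
        ≤ Real.exp ((1 - δ) * Real.log (q * T)) := Real.exp_le_exp.mpr h1
      _ = _ := h2
  have hqphs : (q : ℝ) ≤ (phs q : ℝ) * d ^ 2 := by
    have := hP q hq hphs
    rw [hd]
    exact_mod_cast this
  have hqd : 0 < (q : ℝ) ^ δ := Real.rpow_pos_of_pos hq0 δ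
  have hTd : 0 < T ^ δ := Real.rpow_pos_of_pos hT0 δ
  have hTd2 : C * C1 ^ 3 / ε ≤ T ^ δ := by
    have hb : 0 ≤ C * C1 ^ 3 / ε := by positivity
    have h1 : ((C * C1 ^ 3 / ε) ^ (1 / δ)) ^ δ ≤ T ^ δ :=
      Real.rpow_le_rpow (Real.rpow_nonneg hb _) hTK hδ.le
    have h2 : ((C * C1 ^ 3 / ε) ^ (1 / δ)) ^ δ = C * C1 ^ 3 / ε := by
      rw [← Real.rpow_mul hb, one_div_mul_cancel hδ.ne', Real.rpow_one]
    rw [← h2]; exact h1
  have hfin : C * C1 ^ 3 ≤ ε * T ^ δ := by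
    rw [div_le_iff₀ hε] at hTd2
    linarith
  have hphs0 : (0 : ℝ) ≤ (phs q : ℝ) := by positivity
  calc C * d * Real.exp ((1 + δ) * (β * Real.log (q * T)))
      ≤ C * d * (((q : ℝ) / (q : ℝ) ^ δ) * (T / T ^ δ)) :=
        mul_le_mul_of_nonneg_left hexp (by positivity)
    _ ≤ C * d * ((((phs q : ℝ) * d ^ 2) / (q : ℝ) ^ δ) * (T / T ^ δ)) := by
        apply mul_le_mul_of_nonneg_left _ (by positivity)
        apply mul_le_mul_of_nonneg_right _ (by positivity)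
        exact div_le_div_of_nonneg_right hqphs hqd.le
    _ = (C * (phs q : ℝ) * T / ((q : ℝ) ^ δ * T ^ δ)) * d ^ 3 := by
        field_simp
    _ ≤ (C * (phs q : ℝ) * T / ((q : ℝ) ^ δ * T ^ δ)) * (C1 ^ 3 * (q : ℝ) ^ δ) :=
        mul_le_mul_of_nonneg_left hd3 (by positivity)
    _ = ((phs q : ℝ) * T / T ^ δ) * (C * C1 ^ 3) := by
        field_simp
    _ ≤ ((phs q : ℝ) * T / T ^ δ) * (ε * T ^ δ) :=
        mul_le_mul_of_nonneg_left hfin (by positivity)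
    _ = ε * ((phs q : ℝ) * T) := by
        field_simp

end J8

/-- job 8 -/
theorem t_Job8 : Job8 := by
  intro hP β hβ0 hβ1
  refine ⟨(1 - β) / 2, by linarith, by linarith, ?_⟩
  intro C ε hC hε
  obtain ⟨C1, hC1, hdiv⟩ := H353.divisor_bound_real ((1 - β) / 2 / 3) (by linarith)
  refine ⟨max 1 ((C * C1 ^ 3 / ε) ^ (1 / ((1 - β) / 2))), le_max_left _ _, ?_⟩
  intro q T hq hT hphs
  exact J8.key β ((1 - β) / 2) C ε C1 (by linarith) (by nlinarith) hC hε hC1 hdiv hP q T hq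
    (le_trans (le_max_left _ _) hT) (le_trans (le_max_right _ _) hT) hphs

end Pool.Agent.NH13.DZ
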