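import Pool.Agent.NH13.DZ.Stm

/-!
# Project DZ: the pointwise bound for `Yq`
-/

set_option autoImplicit false

open Complex MeasureTheory Set Filter Topology ComplexConjugate

namespace Pool.Agent.NH13.DZ

theorem t_Job9a : Job9a := by
  intro hS β δ C hβ hβ1 hδ hδ1 hC hoff
  obtain ⟨_, C1, hC1, hS1⟩ := hS
  obtain ⟨K0, hK0, hoff⟩ := hoff C 1 hC one_pos
  refine ⟨C1 + C, max 6 K0, by positivity, hK0.trans (le_max_right _ _), ?_⟩
  intro q T hq hadm hphs u hu
  obtain ⟨hT, hTL⟩ := hadm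
  have h6 : (6 : ℝ) ≤ T := (le_max_left _ _).trans hT
  have hT0 : 0 < T := by linarith
  have hq1 : (1 : ℝ) ≤ q := by exact_mod_cast hq
  have hu0 : 0 ≤ u := hu.1
  obtain ⟨hs0, hs1⟩ := hS1 u hu0
  obtain ⟨W, hW⟩ : ∃ W : ℝ, W = (phs q : ℝ) := ⟨_, rfl⟩
  have hW0 : 0 ≤ W := by rw [hW]; exact Nat.cast_nonneg _
  obtain ⟨L, hL⟩ : ∃ L : ℝ, L = Real.log (q * T) := ⟨_, rfl⟩
  rw [← hL] at hTL hu
  have hL0 : 0 ≤ L := by
    rw [hL]
    exact Real.log_nonneg (by nlinarith)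
  have hsq : Real.sqrt (6 * L) ≤ T := by
    rw [Real.sqrt_mul (by norm_num)]
    have h1 : Real.sqrt 6 ≤ 6 := by
      rw [Real.sqrt_le_left (by norm_num)]
      norm_num
    have h2 : Real.sqrt 6 * Real.sqrt L ≤ max 6 K0 * Real.sqrt L :=
      mul_le_mul_of_nonneg_right (h1.trans (le_max_left _ _)) (Real.sqrt_nonneg _)
    exact h2.trans hTL
  have hpi : T / (2 * Real.pi) ≤ T := by
    apply div_le_self hT0.le
    linarith [Real.pi_gt_three]
  have h1 : T / (2 * Real.pi) * S1 u ≤ T * (C1 * (u + 1)) :=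
    mul_le_mul hpi hs1 hs0 hT0.le
  have h2 : C * Real.sqrt (6 * L) * (u + 1) ≤ C * T * (u + 1) := by gcongr
  have h3 := hoff q T hq ((le_max_right _ _).trans hT) hphs
  rw [← hL, ← hW, one_mul] at h3
  have h4 : C * (q.divisors.card : ℝ) * Real.exp ((1 + δ) * u) ≤ W * T := by
    refine le_trans ?_ h3
    apply mul_le_mul_of_nonneg_left _ (by positivity)
    apply Real.exp_le_exp.2
    exact mul_le_mul_of_nonneg_left hu.2 (by linarith)
  unfold Yq
  rw [← hW, ← hL]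
  calc W * (T / (2 * Real.pi) * S1 u + C * Real.sqrt (6 * L) * (u + 1)) +
        C * (q.divisors.card : ℝ) * Real.exp ((1 + δ) * u)
      ≤ W * (T * (C1 * (u + 1)) + C * T * (u + 1)) + W * T := by gcongr
    _ = T * ((C1 + C) * W * (u + 1) + W) := by ring

end Pool.Agent.NH13.DZ
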