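import Pool.Agent.NH13.DZ.Stm

/-!
# Zeros of the L-functions of all primitive characters of one modulus: job 9b
-/

set_option autoImplicit false

open Complex MeasureTheory Set Filter Topology ComplexConjugate

namespace Pool.Agent.NH13.DZ

open H385 (bt Rw LF GoodU)
open H370 (NN Nd Ns)

namespace J9b

theorem int_bound (R S : ℝ → ℝ) (hR : Continuous R) (hS : Continuous S) (R0 Λ a b c E : ℝ)
    (h0 : ∀ x, 0 ≤ R x) (h1 : ∀ x, R x ≤ R0) (hΛ : 0 < Λ) (hb : 0 ≤ b) (hc : 0 ≤ c)
    (hE : 0 ≤ E) :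
    ∫ u in (0 : ℝ)..Λ, R (u / Λ) * (a * S u + b * (u + 1) + c * Real.exp (E * u)) ≤
      a * (∫ u in (0 : ℝ)..Λ, R (u / Λ) * S u) + Λ * (R0 * (b * (Λ + 1) + c * Real.exp (E * Λ))) := by
  have hR0 : 0 ≤ R0 := (h0 0).trans (h1 0)
  have i1 : IntervalIntegrable (fun u => a * (R (u / Λ) * S u)) volume 0 Λ :=
    Continuous.intervalIntegrable (by fun_prop) _ _
  have i2 : IntervalIntegrable (fun u => R (u / Λ) * (b * (u + 1) + c * Real.exp (E * u)))
      volume 0 Λ := Continuous.intervalIntegrable (by fun_prop) _ _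
  have e : ∫ u in (0 : ℝ)..Λ, R (u / Λ) * (a * S u + b * (u + 1) + c * Real.exp (E * u)) =
      a * (∫ u in (0 : ℝ)..Λ, R (u / Λ) * S u) +
        ∫ u in (0 : ℝ)..Λ, R (u / Λ) * (b * (u + 1) + c * Real.exp (E * u)) := by
    rw [← intervalIntegral.integral_const_mul, ← intervalIntegral.integral_add i1 i2]
    congr 1
    funext u
    ring
  rw [e]
  have h2 : ∫ u in (0 : ℝ)..Λ, R (u / Λ) * (b * (u + 1) + c * Real.exp (E * u)) ≤
      ∫ _ in (0 : ℝ)..Λ, R0 * (b * (Λ + 1) + c * Real.exp (E * Λ)) := by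
    refine intervalIntegral.integral_mono_on hΛ.le i2 (by simp) fun u hu => ?_
    have hu0 := hu.1
    have hu1 := hu.2
    have e1 : b * (u + 1) ≤ b * (Λ + 1) := mul_le_mul_of_nonneg_left (by linarith) hb
    have e2 : c * Real.exp (E * u) ≤ c * Real.exp (E * Λ) :=
      mul_le_mul_of_nonneg_left (Real.exp_le_exp.2 (mul_le_mul_of_nonneg_left hu1 hE)) hc
    have e3 : 0 ≤ b * (u + 1) + c * Real.exp (E * u) :=
      add_nonneg (mul_nonneg hb (by linarith)) (mul_nonneg hc (Real.exp_pos _).le)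
    calc R (u / Λ) * (b * (u + 1) + c * Real.exp (E * u))
        ≤ R0 * (b * (u + 1) + c * Real.exp (E * u)) := mul_le_mul_of_nonneg_right (h1 _) e3
      _ ≤ _ := mul_le_mul_of_nonneg_left (add_le_add e1 e2) hR0
  rw [intervalIntegral.integral_const, sub_zero, smul_eq_mul] at h2
  linarith

end J9b

theorem t_Job9b : Job9b := by
  intro hS1 hS2 hRw γ β δ C ε hγ hγπ hβ hβ1 hδ hδ1 hC hε hoff
  obtain ⟨hSc, -⟩ := hS1
  obtain ⟨C2, hC2, hsm⟩ := hS2 γ hγ hγπ
  obtain ⟨hRc, hR0, hR1⟩ := hRw γ hγ hγπ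
  set R0 := Rw γ 0 with hR0d
  have hR0n : 0 ≤ R0 := hR0 0
  set I1 := ∫ α in (0 : ℝ)..1, α * Rw γ α with hI1
  have hsp : 0 < Real.sqrt Real.pi := Real.sqrt_pos.2 Real.pi_pos
  have hspp : Real.sqrt Real.pi * Real.sqrt Real.pi = Real.pi := Real.mul_self_sqrt Real.pi_pos.le
  set s := Real.sqrt Real.pi with hs
  -- the constant for the off-diagonal part
  set ε' := ε * s / (12 * Real.pi * (R0 + 1)) with hε'
  have hpi := Real.pi_pos
  have hε'0 : 0 < ε' := by positivity
  obtain ⟨K1, hK1, hoff1⟩ := hoff C ε' hC hε'0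
  set M := 1 + 1 / β + 6 * C2 / (s * ε) with hM
  have hM1 : 1 ≤ M := by
    have : 0 ≤ 1 / β + 6 * C2 / (s * ε) := by positivity
    rw [hM]
    linarith
  set K2 := 72 * s * C * R0 / ε with hK2
  have hK2n : 0 ≤ K2 := by positivity
  refine ⟨K1 + Real.exp M + K2, by linarith [Real.exp_pos M], ?_⟩
  rintro q T hq ⟨hT1, hT2⟩ hphs
  set K := K1 + Real.exp M + K2 with hK
  have hKK1 : K1 ≤ K := by linarith [Real.exp_pos M]
  have hKM : Real.exp M ≤ K := by linarith
  have hKK2 : K2 ≤ K := by linarith [Real.exp_pos M]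
  have hKpos : 0 < K := by linarith [Real.exp_pos M]
  have hTpos : 0 < T := by linarith
  have hq1 : (1 : ℝ) ≤ q := by exact_mod_cast hq
  set L := Real.log (q * T) with hL
  have hML : M ≤ L := by
    rw [hL, Real.le_log_iff_exp_le (by positivity)]
    calc Real.exp M ≤ T := hKM.trans hT1
      _ = 1 * T := (one_mul T).symm
      _ ≤ q * T := mul_le_mul_of_nonneg_right hq1 hTpos.le
  have hL1 : 1 ≤ L := hM1.trans hML
  have hL0 : 0 < L := by linarith
  have hβL : 1 ≤ β * L := by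
    have h1 : 1 / β ≤ L := by
      have : 0 ≤ 6 * C2 / (s * ε) := by positivity
      rw [hM] at hML
      linarith
    rw [div_le_iff₀ hβ] at h1
    linarith
  have hβLpos : 0 < β * L := by linarith
  have hLC : 6 * C2 / (s * ε) ≤ L := by
    have : 0 ≤ 1 / β := by positivity
    rw [hM] at hML
    linarith
  set W : ℝ := (phs q : ℝ) with hW
  have hW0 : 0 < W := by
    rw [hW]
    exact_mod_cast Nat.pos_of_ne_zero hphs
  set dq : ℝ := (q.divisors.card : ℝ) with hdq
  have hdq0 : 0 ≤ dq := Nat.cast_nonneg _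
  set X := Real.exp ((1 + δ) * (β * L)) with hX
  have hX0 : 0 < X := Real.exp_pos _
  have hoff2 : C * dq * X ≤ ε' * (W * T) := hoff1 q T hq (hKK1.trans hT1) hphs
  have hsq : K * Real.sqrt L ≤ T := hT2
  set r := Real.sqrt L with hr
  have hr0 : 0 < r := Real.sqrt_pos.2 hL0
  have h6 : Real.sqrt (6 * L) ≤ 3 * r := by
    rw [Real.sqrt_mul (by norm_num)]
    apply mul_le_mul_of_nonneg_right _ hr0.le
    rw [Real.sqrt_le_left (by norm_num)]
    norm_num
  set r6 := Real.sqrt (6 * L) with hr6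
  have hr60 : 0 ≤ r6 := Real.sqrt_nonneg _
  -- the integral
  have hint := J9b.int_bound (Rw γ) S1 hRc hSc R0 (β * L) (W * (T / (2 * Real.pi)))
    (W * (C * r6)) (C * dq) (1 + δ) hR0 hR1 hβLpos (by positivity) (by positivity) (by linarith)
  have hcongr : (∫ u in (0 : ℝ)..(β * L), Rw γ (u / (β * L)) * Yq δ C q T u) =
      ∫ u in (0 : ℝ)..(β * L), Rw γ (u / (β * L)) * (W * (T / (2 * Real.pi)) * S1 u +
        W * (C * r6) * (u + 1) + C * dq * Real.exp ((1 + δ) * u)) := by
    congr 1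
    funext u
    simp only [Yq]
    ring
  have hsm1 := hsm (β * L) hβL
  rw [hcongr]
  set J := ∫ u in (0 : ℝ)..(β * L), Rw γ (u / (β * L)) * (W * (T / (2 * Real.pi)) * S1 u +
        W * (C * r6) * (u + 1) + C * dq * Real.exp ((1 + δ) * u)) with hJ
  set J1 := ∫ u in (0 : ℝ)..(β * L), Rw γ (u / (β * L)) * S1 u with hJ1
  have hA : J ≤ W * (T / (2 * Real.pi)) * (s * (β * L) ^ 2 * I1 + C2 * (β * L)) +
      β * L * (R0 * (W * (C * r6) * (β * L + 1) + C * dq * X)) := by
    refine hint.trans (add_le_add_left ?_ _)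
    exact mul_le_mul_of_nonneg_left hsm1 (by positivity)
  have hcoef : 0 ≤ 2 / (s * (β * L)) := by positivity
  have hB := mul_le_mul_of_nonneg_left hA hcoef
  refine hB.trans ?_
  have e1 : 2 / (s * (β * L)) * (W * (T / (2 * Real.pi)) * (s * (β * L) ^ 2 * I1 + C2 * (β * L)) +
      β * L * (R0 * (W * (C * r6) * (β * L + 1) + C * dq * X))) =
      T / (2 * Real.pi) * L * W * (2 * β * I1) + T / (2 * Real.pi) * W * (2 * C2 / s) +
        2 / s * R0 * (W * (C * r6) * (β * L + 1)) + 2 / s * R0 * (C * dq * X) := by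
    field_simp
    ring
  rw [e1]
  -- the three error terms
  have t1 : T / (2 * Real.pi) * W * (2 * C2 / s) ≤ T / (2 * Real.pi) * L * W * (ε / 3) := by
    have : 2 * C2 / s ≤ L * (ε / 3) := by
      rw [div_le_iff₀ (by positivity)] at hLC
      rw [div_le_iff₀ hsp]
      linarith
    calc T / (2 * Real.pi) * W * (2 * C2 / s) ≤ T / (2 * Real.pi) * W * (L * (ε / 3)) :=
          mul_le_mul_of_nonneg_left this (by positivity)
      _ = _ := by ring
  have t2 : 2 / s * R0 * (W * (C * r6) * (β * L + 1)) ≤ T / (2 * Real.pi) * L * W * (ε / 3) := by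
    have hb1 : β * L + 1 ≤ 2 * L := by nlinarith
    have hb2 : K2 * r ≤ T := (mul_le_mul_of_nonneg_right hKK2 hr0.le).trans hsq
    have hb3 : 72 * s * C * R0 * r ≤ T * ε := by
      have : K2 * r = 72 * s * C * R0 * r / ε := by rw [hK2]; ring
      rw [this, div_le_iff₀ hε] at hb2
      exact hb2
    calc 2 / s * R0 * (W * (C * r6) * (β * L + 1))
        ≤ 2 / s * R0 * (W * (C * (3 * r)) * (2 * L)) := by gcongr
      _ = (72 * s * C * R0 * r) * (W * L / (6 * Real.pi)) := by
          rw [← hspp]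
          field_simp
          ring
      _ ≤ (T * ε) * (W * L / (6 * Real.pi)) := mul_le_mul_of_nonneg_right hb3 (by positivity)
      _ = _ := by
          field_simp
          ring
  have t3 : 2 / s * R0 * (C * dq * X) ≤ T / (2 * Real.pi) * L * W * (ε / 3) := by
    calc 2 / s * R0 * (C * dq * X) ≤ 2 / s * R0 * (ε' * (W * T)) :=
          mul_le_mul_of_nonneg_left hoff2 (by positivity)
      _ = (R0 / (R0 + 1)) * (T / (2 * Real.pi) * W * (ε / 3)) := by
          rw [hε']
          field_simp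
          ring
      _ ≤ 1 * (T / (2 * Real.pi) * W * (ε / 3)) := by
          apply mul_le_mul_of_nonneg_right _ (by positivity)
          rw [div_le_one (by linarith)]
          linarith
      _ ≤ L * (T / (2 * Real.pi) * W * (ε / 3)) :=
          mul_le_mul_of_nonneg_right hL1 (by positivity)
      _ = _ := by ring
  have : T / (2 * Real.pi) * L * W * (2 * β * I1 + ε) =
      T / (2 * Real.pi) * L * W * (2 * β * I1) + T / (2 * Real.pi) * L * W * (ε / 3) +
        T / (2 * Real.pi) * L * W * (ε / 3) + T / (2 * Real.pi) * L * W * (ε / 3) := by ring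
  rw [this]
  linarith

end Pool.Agent.NH13.DZ
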