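import Pool.Agent.NH13.DZ.Stm

/-!
# DZ-9c: the mean square hypothesis (helper48)
-/

set_option autoImplicit false

open Complex MeasureTheory Set Filter Topology ComplexConjugate

namespace Pool.Agent.NH13.DZ

theorem t_Job9c : Job9c := by
  intro hTs hOff hPt hInt hS1 γ β hγ hγπ hβ hβ1 ε hε
  obtain ⟨δ, hδ, hδ1, hsm⟩ := hOff β hβ hβ1
  obtain ⟨C, hC, hTs⟩ := hTs δ hδ hδ1
  obtain ⟨A, K1, hA, hK1, hPt⟩ := hPt β δ C hβ hβ1 hδ hδ1 hC hsm
  obtain ⟨K2, hK2, hInt⟩ := hInt γ β δ C ε hγ hγπ hβ hβ1 hδ hδ1 hC hε hsm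
  set K : ℝ := max (max 6 K1) (max K2 (Real.exp ((Real.sqrt A + 1) / ε))) with hK
  have k1 : (6 : ℝ) ≤ K := (le_max_left _ _).trans (le_max_left _ _)
  have k2 : K1 ≤ K := (le_max_right _ _).trans (le_max_left _ _)
  have k3 : K2 ≤ K := (le_max_left _ _).trans (le_max_right _ _)
  have k4 : Real.exp ((Real.sqrt A + 1) / ε) ≤ K := (le_max_right _ _).trans (le_max_right _ _)
  refine ⟨K, by linarith, fun q _ T hadm hphs => ?_⟩
  obtain ⟨a1, a2⟩ := hadm
  have hq : 1 ≤ q := Nat.one_le_iff_ne_zero.2 (NeZero.ne q)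
  have hq' : (1 : ℝ) ≤ q := by exact_mod_cast hq
  have hT0 : 0 < T := by linarith
  have hqT : T ≤ q * T := by
    calc T = 1 * T := (one_mul T).symm
      _ ≤ q * T := mul_le_mul_of_nonneg_right hq' hT0.le
  have hL1 : (Real.sqrt A + 1) / ε ≤ Real.log (q * T) := by
    rw [Real.le_log_iff_exp_le (by linarith)]
    linarith
  have hL2 : 1 ≤ Real.log (q * T) := by
    rw [Real.le_log_iff_exp_le (by linarith)]
    have := Real.exp_one_lt_d9
    linarith
  have hsq : 0 ≤ Real.sqrt (Real.log (q * T)) := Real.sqrt_nonneg _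
  have hadm1 : Adm K1 q T := ⟨k2.trans a1, (mul_le_mul_of_nonneg_right k2 hsq).trans a2⟩
  have hadm2 : Adm K2 q T := ⟨k3.trans a1, (mul_le_mul_of_nonneg_right k3 hsq).trans a2⟩
  have hκ1 : 1 ≤ Real.sqrt (6 * Real.log (q * T)) := by
    rw [Real.one_le_sqrt]
    linarith
  have hκ2 : Real.sqrt (6 * Real.log (q * T)) ^ 2 = 6 * Real.log (q * T) :=
    Real.sq_sqrt (by linarith)
  have hTκ : T ≤ Real.exp (Real.sqrt (6 * Real.log (q * T)) ^ 2) := by
    rw [hκ2]
    calc T ≤ q * T := hqT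
      _ = Real.exp (Real.log (q * T)) := (Real.exp_log (by linarith)).symm
      _ ≤ Real.exp (6 * Real.log (q * T)) := Real.exp_le_exp.2 (by linarith)
  have hW0 : (0 : ℝ) ≤ phs q := Nat.cast_nonneg _
  refine ⟨Yq δ C q T, A * phs q, phs q, mul_nonneg hA.le hW0, hW0, ?_, ?_, ?_, ?_, ?_⟩
  · intro u hu
    exact hTs q T _ u hκ1 (by linarith) hTκ hu.1
  · intro u hu
    exact hPt q T hq hadm1 hphs u hu
  · apply Continuous.intervalIntegrable
    unfold Yq
    have hS := hS1.1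
    fun_prop
  · exact hInt q T hq hadm2 hphs
  · rw [Real.sqrt_mul hA.le]
    have h1 : Real.sqrt A + 1 ≤ ε * Real.log (q * T) := by
      rw [div_le_iff₀ hε] at hL1
      linarith
    calc Real.sqrt A * Real.sqrt (phs q) + Real.sqrt (phs q)
        = (Real.sqrt A + 1) * Real.sqrt (phs q) := by ring
      _ ≤ ε * Real.log (q * T) * Real.sqrt (phs q) :=
          mul_le_mul_of_nonneg_right h1 (Real.sqrt_nonneg _)

end Pool.Agent.NH13.DZ
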