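import Pool.Agent.NH13.DZ.Stm
import Pool.Agent.H385R2.FinB
import Pool.Agent.H385R2.FinB2

/-!
# Job R: restatements of known facts
-/

set_option autoImplicit false

open Complex MeasureTheory Set Filter Topology ComplexConjugate

namespace Pool.Agent.NH13.DZ

open H385 (bt Rw LF GoodU)

theorem JR.cf_sq (T u t : ℝ) (n : ℕ) : ‖cf T u t n‖ ^ 2 =
    (ArithmeticFunction.vonMangoldt n) ^ 2 *
      ‖(Real.sqrt n : ℂ)⁻¹ * bt T u t (Real.log n)‖ ^ 2 := by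
  unfold cf
  rw [norm_mul, mul_pow, Complex.norm_real, Real.norm_eq_abs, sq_abs]

theorem JR.S1_eq : S1 = H385.S1 := rfl

theorem t_BtSum : BtSum := by
  obtain ⟨C, hC, h⟩ := H385.bt_sum_int
  obtain ⟨C5, hC5, h5⟩ := H385.bt_sq_int
  refine ⟨C, hC, fun T κ u N hκ hT hTκ hu => ⟨fun n => ?_, ?_⟩⟩
  · have h1 := (h5 T κ u (Real.log n) hκ hT hTκ).1
    have h2 : (fun t : ℝ => ‖cf T u t n‖ ^ 2) = fun t : ℝ =>
        ((ArithmeticFunction.vonMangoldt n) ^ 2 * ‖(Real.sqrt n : ℂ)⁻¹‖ ^ 2) *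
          ‖bt T u t (Real.log n)‖ ^ 2 := by
      funext t
      rw [JR.cf_sq, norm_mul, mul_pow]
      ring
    rw [h2]
    exact h1.const_mul _
  · have h1 := (h T κ u N hκ hT hTκ hu).2
    simp only [JR.cf_sq]
    exact h1

theorem t_S1Crude : S1Crude := ⟨H385.S1_cont, H385.S1_le⟩

theorem t_S1Smooth : S1Smooth := fun γ h0 hπ => H385.lam_sq_smooth_w γ h0 hπ

theorem t_RwFacts : RwFacts := by
  intro γ h0 hπ
  refine ⟨H385.Rw_cont γ h0 hπ, H385.Rw_nonneg γ h0 hπ, fun x => ?_⟩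
  rcases le_total 0 x with hx | hx
  · exact H385.Rw_le γ h0 hπ x hx
  · rw [← H385.Rw_even γ x]
    exact H385.Rw_le γ h0 hπ (-x) (by linarith)

end Pool.Agent.NH13.DZ
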