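import Pool.Agent.NH13.DZ.Fin
import Pool.Agent.NH13.DZ.J1
import Pool.Agent.NH13.DZ.J2
import Pool.Agent.NH13.DZ.J3
import Pool.Agent.NH13.DZ.J4
import Pool.Agent.NH13.DZ.J5
import Pool.Agent.NH13.DZ.J6
import Pool.Agent.NH13.DZ.J7
import Pool.Agent.NH13.DZ.J8
import Pool.Agent.NH13.DZ.J9a
import Pool.Agent.NH13.DZ.J9b
import Pool.Agent.NH13.DZ.J9c
import Pool.Agent.NH13.DZ.J10
import Pool.Agent.NH13.DZ.J11
import Pool.Agent.NH13.DZ.JR
import Pool.Agent.H385R2.WinE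
import Pool.Agent.H385R2.FinA
import Pool.Agent.H370R2.RightZeros
import Pool.Agent.H370R2.DirGood

/-!
# Project DZ: all parts
-/

set_option autoImplicit false

open Complex MeasureTheory Set Filter Topology ComplexConjugate

namespace Pool.Agent.NH13.DZ

open H385 (bt Rw LF GoodU)
open H370 (NN Nd Ns)

theorem hcard (q : ℕ) [NeZero q] : (PrimS q).card = phs q := by
  classical
  unfold phs PrimS
  rw [Nat.card_eq_fintype_card, Fintype.card_subtype]

theorem hNs (q : ℕ) [NeZero q] (χ : DirichletCharacter ℂ q) (T : ℝ) (hχ : χ.IsPrimitive)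
    (hT : 1 ≤ T) :
    Ns (LF q χ) T (2 * T) ≤ NN (LF q χ) T (2 * T) ∧ Nd (LF q χ) T (2 * T) ≤ NN (LF q χ) T (2 * T) := by
  have hF : H370.GoodL (LF q χ) := by
    rw [H385.LF_eq]
    exact H370.good_dirichlet χ hχ
  have h1 := H370.NR_split hF (b := 2 * T) hT
  refine ⟨by omega, ?_⟩
  rw [H370.Nd_card hF hT, H370.NN_eq hF hT, Finset.card_eq_sum_ones]
  refine Finset.sum_le_sum fun s hs => ?_
  have hs' := (H370.mem_Zf hF hT).mp hs
  exact H370.Loc.mult_pos' hF (by linarith [hs'.2.2.1]) hs'.2.2.2.2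

theorem final : Final := by
  have hOffInt := t_Job3 t_Kernel
  have hFinB := t_Job5 t_PrimExact hOffInt t_OffSum t_BtSum
  have hTs := t_Job6 hFinB
  have hSmall := t_Job8 t_PhsLow
  have hPt := t_Job9a t_S1Crude
  have hInt := t_Job9b t_S1Crude t_S1Smooth t_RwFacts
  have hHY := t_Job9c hTs hSmall hPt hInt t_S1Crude
  refine final_of (fun γ β h0 hπ hβ0 hβ1 => ?_) t_NLowq t_RwFacts H385.Rw_const_d2
    (fun q _ => hcard q) (fun q _ χ T h1 h2 => hNs q χ T h1 h2)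
  refine t_Job10 t_RwFacts γ β _ h0 hπ hβ0 hβ1 ?_ (hHY γ β h0 hπ hβ0 hβ1)
  have h3 := (t_RwFacts γ h0 hπ).2.1
  have : 0 ≤ ∫ α in (0 : ℝ)..1, α * Rw γ α :=
    intervalIntegral.integral_nonneg zero_le_one (fun α hα => mul_nonneg hα.1 (h3 α))
  positivity

end Pool.Agent.NH13.DZ
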