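import Pool.Agent.NH13.DZ.Num
import Pool.Agent.H370R2.RightZeros

/-!
# Project DZ: final assembly
-/

set_option autoImplicit false

open Complex MeasureTheory Set Filter Topology ComplexConjugate

namespace Pool.Agent.NH13.DZ

open H385 (bt Rw LF GoodU)
open H370 (NN Nd Ns)

/-- the final statement in terms of `PrimS` -/
def Final : Prop := ∃ K : ℝ, 1 ≤ K ∧ ∀ (q : ℕ) [NeZero q] (T : ℝ),
  K * Real.sqrt (Real.log ((q : ℝ) + 2)) ≤ T →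
  0.6725 * ∑ χ ∈ PrimS q, (NN (LF q χ) T (2 * T) : ℝ) ≤ ∑ χ ∈ PrimS q, (Ns (LF q χ) T (2 * T) : ℝ) ∧
  0.83625 * ∑ χ ∈ PrimS q, (NN (LF q χ) T (2 * T) : ℝ) ≤ ∑ χ ∈ PrimS q, (Nd (LF q χ) T (2 * T) : ℝ) ∧
  ∀ y : ℝ, 0 ≤ y → y < 1 → ∀ (P Q : DirichletCharacter ℂ q → Prop) [DecidablePred P] [DecidablePred Q],
    (∀ χ, P χ → (Ns (LF q χ) T (2 * T) : ℝ) < y * (NN (LF q χ) T (2 * T) : ℝ)) →
    (∀ χ, Q χ → (Nd (LF q χ) T (2 * T) : ℝ) < y * (NN (LF q χ) T (2 * T) : ℝ)) →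
    (((PrimS q).filter P).card : ℝ) * (1 - y) ≤ 0.3275 * (phs q : ℝ) ∧
    (((PrimS q).filter Q).card : ℝ) * (1 - y) ≤ 0.16375 * (phs q : ℝ)

theorem final_of (hcore : ∀ γ β : ℝ, 0 < γ → γ < Real.pi → 0 < β → β < 1 →
      CoreC (Rw γ 0 / β + 2 * β * (∫ α in (0 : ℝ)..1, α * Rw γ α)))
    (hlow : NLowq) (hR : RwFacts)
    (hconst : Rw 1.414 0 + 2 * ∫ α in (0 : ℝ)..1, α * Rw 1.414 α < 1.3275)
    (hcard : ∀ (q : ℕ) [NeZero q], (PrimS q).card = phs q)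
    (hNs : ∀ (q : ℕ) [NeZero q] (χ : DirichletCharacter ℂ q) (T : ℝ), χ.IsPrimitive → 1 ≤ T →
      Ns (LF q χ) T (2 * T) ≤ NN (LF q χ) T (2 * T) ∧ Nd (LF q χ) T (2 * T) ≤ NN (LF q χ) T (2 * T)) :
    Final := by
  have hγ : (1.414 : ℝ) < Real.pi := by linarith [Real.pi_gt_three]
  obtain ⟨-, hR0, -⟩ := hR 1.414 (by norm_num) hγ
  have hI1 : 0 ≤ ∫ α in (0 : ℝ)..1, α * Rw 1.414 α :=
    intervalIntegral.integral_nonneg zero_le_one (fun α hα => mul_nonneg hα.1 (hR0 α))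
  obtain ⟨β, ε, hβ0, hβ1, hε0, hε1, h1, h2⟩ := choose_beta (hR0 0) hI1 hconst
  obtain ⟨K1, hK1, hC⟩ := hcore 1.414 β (by norm_num) hγ hβ0 hβ1 ε hε0
  obtain ⟨K2, hK2, hL⟩ := hlow ε hε0
  obtain ⟨c, hc⟩ : ∃ c : ℝ, c = Rw 1.414 0 / β + 2 * β * (∫ α in (0 : ℝ)..1, α * Rw 1.414 α) :=
    ⟨_, rfl⟩
  rw [← hc] at h1 h2 hC
  obtain ⟨K0, hK0⟩ : ∃ K0 : ℝ, K0 = max K1 K2 := ⟨_, rfl⟩
  have hK01 : 1 ≤ K0 := hK0 ▸ hK1.trans (le_max_left _ _)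
  refine ⟨4 * K0 ^ 2, by nlinarith, ?_⟩
  intro q _ T hT
  have hq : 1 ≤ q := NeZero.one_le
  have hadm := adm_of hK01 q hq T hT
  have adm_mono : ∀ K', K' ≤ K0 → Adm K' q T := by
    intro K' hK'
    refine ⟨hK'.trans hadm.1, le_trans ?_ hadm.2⟩
    exact mul_le_mul_of_nonneg_right hK' (Real.sqrt_nonneg _)
  have hT1 : 1 ≤ T := hK01.trans hadm.1
  have hq1 : (1 : ℝ) ≤ q := by exact_mod_cast hq
  obtain ⟨M, hM⟩ : ∃ M : ℝ, M = T / (2 * Real.pi) * Real.log (q * T) := ⟨_, rfl⟩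
  rcases eq_or_ne (phs q) 0 with h0 | h0
  · have hemp : PrimS q = ∅ := by rw [← Finset.card_eq_zero, hcard q, h0]
    rw [hemp]
    simp [h0]
  have hN : ∀ χ ∈ PrimS q, (1 - ε) * M ≤ (NN (LF q χ) T (2 * T) : ℝ) := by
    intro χ hχ
    rw [hM]
    refine hL q χ T ?_ (adm_mono K2 (hK0 ▸ le_max_right _ _))
    simpa [PrimS] using hχ
  have hNs' : ∀ χ ∈ PrimS q, (Ns (LF q χ) T (2 * T) : ℝ) ≤ (NN (LF q χ) T (2 * T) : ℝ) ∧
      (Nd (LF q χ) T (2 * T) : ℝ) ≤ (NN (LF q χ) T (2 * T) : ℝ) := by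
    intro χ hχ
    have h := hNs q χ T (by simpa [PrimS] using hχ) hT1
    exact ⟨by exact_mod_cast h.1, by exact_mod_cast h.2⟩
  obtain ⟨c1, c2⟩ := hC q T (adm_mono K1 (hK0 ▸ le_max_left _ _)) h0
  rw [← hM] at c1 c2
  obtain ⟨W, hW⟩ : ∃ W : ℝ, W = (phs q : ℝ) := ⟨_, rfl⟩
  rw [← hW] at c1 c2 ⊢
  have hWc : ((PrimS q).card : ℝ) = W := by rw [hcard q, hW]
  have hW0 : 0 < W := by rw [hW]; exact_mod_cast Nat.pos_of_ne_zero h0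
  obtain ⟨SN, hSN⟩ : ∃ S : ℝ, S = ∑ χ ∈ PrimS q, (NN (LF q χ) T (2 * T) : ℝ) := ⟨_, rfl⟩
  obtain ⟨SS, hSS⟩ : ∃ S : ℝ, S = ∑ χ ∈ PrimS q, (Ns (LF q χ) T (2 * T) : ℝ) := ⟨_, rfl⟩
  obtain ⟨SD, hSD⟩ : ∃ S : ℝ, S = ∑ χ ∈ PrimS q, (Nd (LF q χ) T (2 * T) : ℝ) := ⟨_, rfl⟩
  have hM0 : 0 ≤ M := by
    rw [hM]
    have : 0 ≤ Real.log (q * T) := Real.log_nonneg (by nlinarith)
    have := Real.pi_pos
    positivity
  have hSNlow : (1 - ε) * M * W ≤ SN := by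
    rw [hSN, ← hWc, mul_comm, ← nsmul_eq_mul, ← Finset.sum_const]
    exact Finset.sum_le_sum fun χ hχ => hN χ hχ
  rw [Finset.sum_sub_distrib, ← Finset.mul_sum, ← hSN, ← hSS] at c1
  rw [Finset.sum_sub_distrib, ← Finset.mul_sum, ← Finset.mul_sum, ← hSN, ← hSD] at c2
  rw [← hSN, ← hSS, ← hSD]
  have hMW : 0 ≤ M * W := by positivity
  have d1 : (c + ε) * M * W ≤ 1.3275 * SN := by
    calc (c + ε) * M * W = (c + ε) * (M * W) := by ring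
      _ ≤ 1.3275 * (1 - ε) * (M * W) := mul_le_mul_of_nonneg_right h1 hMW
      _ = 1.3275 * ((1 - ε) * M * W) := by ring
      _ ≤ _ := by linarith
  have d2 : (c - 1 + 2 * ε) * (M * W) ≤ 0.3275 * (1 - ε) * (M * W) :=
    mul_le_mul_of_nonneg_right h2 hMW
  have hMpos : 0 < M := by
    rw [hM]
    have h3 : 1 < (q : ℝ) * T := by
      have := hadm.1
      have h4 : 4 * K0 ^ 2 * Real.sqrt (Real.log ((q : ℝ) + 2)) ≤ T := hT
      have h5 : 1 ≤ Real.sqrt (Real.log ((q : ℝ) + 2)) := by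
        rw [Real.one_le_sqrt, Real.le_log_iff_exp_le (by linarith)]
        have := Real.exp_one_lt_d9
        linarith
      nlinarith [mul_nonneg (show (0 : ℝ) ≤ 4 * K0 ^ 2 by positivity)
        (show 0 ≤ Real.sqrt (Real.log ((q : ℝ) + 2)) - 1 by linarith)]
    have : 0 < Real.log (q * T) := Real.log_pos h3
    have := Real.pi_pos
    positivity
  refine ⟨by linarith, by linarith, ?_⟩
  intro y hy hy1 P Q _ _ hP hQ
  constructor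
  · refine count_le (PrimS q) (fun χ => (NN (LF q χ) T (2 * T) : ℝ))
      (fun χ => (Ns (LF q χ) T (2 * T) : ℝ)) M W (1 - ε) 0.3275 y hMpos hWc hN (by linarith)
      (fun χ hχ => (hNs' χ hχ).1) ?_ hy hy1 P (fun χ _ h => hP χ h)
    rw [Finset.sum_sub_distrib, ← hSN, ← hSS]
    have e : 0.3275 * (1 - ε) * M * W = 0.3275 * (1 - ε) * (M * W) := by ring
    rw [e]
    refine le_trans ?_ d2
    have e2 : (c - 1 + 2 * ε) * (M * W) = (c + ε) * M * W - (1 - ε) * M * W := by ring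
    rw [e2]
    linarith
  · refine count_le (PrimS q) (fun χ => (NN (LF q χ) T (2 * T) : ℝ))
      (fun χ => (Nd (LF q χ) T (2 * T) : ℝ)) M W (1 - ε) 0.16375 y hMpos hWc hN (by linarith)
      (fun χ hχ => (hNs' χ hχ).2) ?_ hy hy1 Q (fun χ _ h => hQ χ h)
    rw [Finset.sum_sub_distrib, ← hSN, ← hSD]
    have e : 0.16375 * (1 - ε) * M * W = 0.3275 * (1 - ε) * (M * W) / 2 := by ring
    rw [e]
    have e2 : (c - 1 + 2 * ε) * (M * W) = (c + ε) * M * W - (1 - ε) * M * W := by ring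
    rw [e2] at d2
    linarith

end Pool.Agent.NH13.DZ
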