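import Pool.Agent.NH13.DZ.Stm

/-!
# Project DZ: elementary final steps
-/

set_option autoImplicit false

open Complex MeasureTheory Set Filter Topology ComplexConjugate

namespace Pool.Agent.NH13.DZ

/-- the choice of `β` and `ε` -/
lemma choose_beta {R0 I1 : ℝ} (hR : 0 ≤ R0) (hI : 0 ≤ I1) (h : R0 + 2 * I1 < 1.3275) :
    ∃ β ε : ℝ, 0 < β ∧ β < 1 ∧ 0 < ε ∧ ε < 1 ∧ R0 / β + 2 * β * I1 + ε ≤ 1.3275 * (1 - ε) ∧
      R0 / β + 2 * β * I1 - 1 + 2 * ε ≤ 0.3275 * (1 - ε) := by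
  obtain ⟨d, hd⟩ : ∃ d : ℝ, d = 1.3275 - (R0 + 2 * I1) := ⟨_, rfl⟩
  have hd0 : 0 < d := by rw [hd]; linarith
  have hd1 : d ≤ 1.3275 := by rw [hd]; linarith
  obtain ⟨s, hs⟩ : ∃ s : ℝ, s = min (1 / 2) (d / (4 * (R0 + 1))) := ⟨_, rfl⟩
  have hs0 : 0 < s := by rw [hs]; positivity
  have hs1 : s ≤ 1 / 2 := by rw [hs]; exact min_le_left _ _
  have hs2 : 4 * (R0 + 1) * s ≤ d := by
    have h1 : s ≤ d / (4 * (R0 + 1)) := by rw [hs]; exact min_le_right _ _
    rw [le_div_iff₀ (by positivity)] at h1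
    linarith
  have e1 : R0 / (1 - s) ≤ R0 + d / 2 := by
    rw [div_le_iff₀ (by linarith)]
    nlinarith [mul_nonneg hR hs0.le, mul_nonneg hd0.le hs0.le]
  have e2 : 2 * (1 - s) * I1 ≤ 2 * I1 := by nlinarith
  refine ⟨1 - s, d / 8, by linarith, by linarith, by positivity, by linarith, ?_, ?_⟩
  · linarith
  · linarith

/-- the range of `T` -/
lemma adm_of {K0 : ℝ} (hK0 : 1 ≤ K0) (q : ℕ) (hq : 1 ≤ q) (T : ℝ)
    (h : 4 * K0 ^ 2 * Real.sqrt (Real.log ((q : ℝ) + 2)) ≤ T) : Adm K0 q T := by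
  have hq1 : (1 : ℝ) ≤ q := by exact_mod_cast hq
  have h3 : 1 ≤ Real.log ((q : ℝ) + 2) := by
    rw [Real.le_log_iff_exp_le (by linarith)]
    have := Real.exp_one_lt_d9
    linarith
  have hs : 1 ≤ Real.sqrt (Real.log ((q : ℝ) + 2)) := by rwa [Real.one_le_sqrt]
  have hT : 4 * K0 ^ 2 ≤ T := le_trans (by nlinarith) h
  have hT1 : 1 ≤ T := by nlinarith
  have hK : K0 ≤ T := by nlinarith
  refine ⟨hK, ?_⟩
  have hlogq : 0 ≤ Real.log q := Real.log_nonneg hq1
  have hlogT : 0 ≤ Real.log T := Real.log_nonneg hT1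
  rw [Real.log_mul (by linarith) (by linarith)]
  have h4 : Real.sqrt (Real.log q + Real.log T) ≤ Real.sqrt (Real.log q) + Real.sqrt (Real.log T) := by
    rw [Real.sqrt_le_left (by positivity)]
    nlinarith [Real.sq_sqrt hlogq, Real.sq_sqrt hlogT, Real.sqrt_nonneg (Real.log q),
      Real.sqrt_nonneg (Real.log T), mul_nonneg (Real.sqrt_nonneg (Real.log q)) (Real.sqrt_nonneg (Real.log T))]
  have h5 : Real.sqrt (Real.log q) ≤ Real.sqrt (Real.log ((q : ℝ) + 2)) :=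
    Real.sqrt_le_sqrt (Real.log_le_log (by linarith) (by linarith))
  have h6 : K0 * Real.sqrt (Real.log q) ≤ T / 2 := by
    have : K0 * Real.sqrt (Real.log q) ≤ K0 * Real.sqrt (Real.log ((q : ℝ) + 2)) := by gcongr
    nlinarith [mul_nonneg (show 0 ≤ K0 - 1 by linarith) (show 0 ≤ K0 by linarith)]
  have h7 : K0 * Real.sqrt (Real.log T) ≤ T / 2 := by
    have a1 : Real.log T ≤ T := (Real.log_le_sub_one_of_pos (by linarith)).trans (by linarith)
    have a2 : Real.sqrt (Real.log T) ≤ Real.sqrt T := Real.sqrt_le_sqrt a1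
    have a3 : 2 * K0 ≤ Real.sqrt T := by
      apply Real.le_sqrt_of_sq_le
      nlinarith
    have a4 : Real.sqrt T * Real.sqrt T = T := Real.mul_self_sqrt (by linarith)
    have a5 : K0 * Real.sqrt (Real.log T) ≤ K0 * Real.sqrt T := by gcongr
    nlinarith [Real.sqrt_nonneg T]
  calc K0 * Real.sqrt (Real.log q + Real.log T) ≤
      K0 * (Real.sqrt (Real.log q) + Real.sqrt (Real.log T)) := by gcongr
    _ ≤ T := by linarith

/-- counting: few members of a family can have a small ratio -/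
lemma count_le {ι : Type} (s : Finset ι) (N D : ι → ℝ) (M W a b y : ℝ) (hM : 0 < M)
    (hW : (s.card : ℝ) = W) (hN : ∀ i ∈ s, a * M ≤ N i) (ha : 0 < a) (hD : ∀ i ∈ s, D i ≤ N i)
    (hsum : ∑ i ∈ s, (N i - D i) ≤ b * a * M * W) (hy : 0 ≤ y) (hy1 : y < 1) (P : ι → Prop)
    [DecidablePred P] (hP : ∀ i ∈ s, P i → D i < y * N i) :
    ((s.filter P).card : ℝ) * (1 - y) ≤ b * W := by
  have h1 : ∑ i ∈ s.filter P, (N i - D i) ≤ ∑ i ∈ s, (N i - D i) :=
    Finset.sum_le_sum_of_subset_of_nonneg (Finset.filter_subset _ _)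
      (fun i hi _ => by linarith [hD i hi])
  have h2 : ((s.filter P).card : ℝ) * ((1 - y) * (a * M)) ≤ ∑ i ∈ s.filter P, (N i - D i) := by
    rw [← nsmul_eq_mul, ← Finset.sum_const]
    refine Finset.sum_le_sum fun i hi => ?_
    obtain ⟨hi1, hi2⟩ := Finset.mem_filter.1 hi
    have := hP i hi1 hi2
    have := hN i hi1
    nlinarith [mul_nonneg (show 0 ≤ 1 - y by linarith) (show 0 ≤ N i - a * M by linarith)]
  have h3 : ((s.filter P).card : ℝ) * (1 - y) * (a * M) ≤ b * W * (a * M) := by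
    calc _ = ((s.filter P).card : ℝ) * ((1 - y) * (a * M)) := by ring
      _ ≤ b * a * M * W := h2.trans (h1.trans hsum)
      _ = _ := by ring
  exact le_of_mul_le_mul_right h3 (by positivity)

end Pool.Agent.NH13.DZ
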