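import Pool.Agent.H385R2.Defs

/-!
# Zeros of the L-functions of all primitive characters of one modulus: statements

`q` is the modulus, `L = log (q T)`, `Λ = β L` with `β < 1`, `κ = √(6 L)`.
-/

set_option autoImplicit false

open Complex MeasureTheory Set Filter Topology ComplexConjugate

namespace Pool.Agent.NH13.DZ

open H385 (bt Rw LF GoodU)
open H370 (NN Nd Ns)

/-- number of primitive characters mod `q` (same as `H385.phs`) -/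
noncomputable def phs (q : ℕ) : ℕ := Nat.card {χ : DirichletCharacter ℂ q // χ.IsPrimitive}

/-- coefficients restricted to `n` coprime to `d` -/
noncomputable def rc (d : ℕ) (c : ℕ → ℂ) (n : ℕ) : ℂ := if n.Coprime d then c n else 0

/-- the off-diagonal part of the mean square over residue classes mod `e` -/
noncomputable def offd (d e : ℕ) (c : ℕ → ℂ) (N : ℕ) : ℝ :=
  ∑ m ∈ Finset.Icc 1 N, ∑ n ∈ Finset.Icc 1 N,
    if (m : ZMod e) = (n : ZMod e) ∧ m ≠ n then (rc d c m * conj (rc d c n)).re else 0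

/-- smoothed square sum of `Λ` (same as `H385.S1`) -/
noncomputable def S1 (u : ℝ) : ℝ := ∑' n : ℕ, (ArithmeticFunction.vonMangoldt n) ^ 2 / n *
        Real.exp (-(u - Real.log n) ^ 2)

/-- the coefficients of the prime side (without the character) -/
noncomputable def cf (T u t : ℝ) (n : ℕ) : ℂ :=
  (ArithmeticFunction.vonMangoldt n : ℂ) * ((Real.sqrt n : ℂ)⁻¹ * bt T u t (Real.log n))

open Classical in
/-- the primitive characters mod `q` -/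
noncomputable def PrimS (q : ℕ) [NeZero q] : Finset (DirichletCharacter ℂ q) :=
  Finset.univ.filter (fun χ => χ.IsPrimitive)

/-! ### prime side -/

/-- job 1: primitive orthogonality as an identity -/
def PrimExact : Prop := ∀ (d : ℕ) [NeZero d] (c : ℕ → ℂ) (N : ℕ),
  ∑ χ ∈ PrimS d, ‖∑ n ∈ Finset.Icc 1 N, c n * χ (n : ZMod d)‖ ^ 2 =
    (phs d : ℝ) * ∑ n ∈ Finset.Icc 1 N, ‖rc d c n‖ ^ 2 +
    ∑ x ∈ d.divisorsAntidiagonal, ((ArithmeticFunction.moebius x.1 : ℤ) : ℝ) *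
      ((x.2.totient : ℝ) * offd d x.2 c N)

/-- job 2: the kernel of the `t`-integration off the diagonal -/
def Kernel : Prop := ∀ T u l l' : ℝ, 0 ≤ T → l ≠ l' →
  ‖∫ t : ℝ, bt T u t l * conj (bt T u t l')‖ ≤
    Real.exp (-((u - l) ^ 2 + (u - l') ^ 2) / 4) / |l - l'|

/-- the off-diagonal sum -/
noncomputable def OS (e N : ℕ) (u : ℝ) : ℝ :=
  ∑ m ∈ Finset.Icc 1 N, ∑ n ∈ Finset.Icc 1 N,
    if (m : ZMod e) = (n : ZMod e) ∧ m ≠ n then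
      ArithmeticFunction.vonMangoldt m * ArithmeticFunction.vonMangoldt n /
        (Real.sqrt m * Real.sqrt n) *
        (Real.exp (-((u - Real.log m) ^ 2 + (u - Real.log n) ^ 2) / 4) /
          |Real.log m - Real.log n|) else 0

/-- conclusion of job 3 -/
def OffInt : Prop := ∀ (T u : ℝ) (d e N : ℕ), 0 ≤ T →
  Integrable (fun t : ℝ => offd d e (cf T u t) N) ∧
    |∫ t : ℝ, offd d e (cf T u t) N| ≤ OS e N u

/-- job 3 -/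
def Job3 : Prop := Kernel → OffInt

/-- job 4 -/
def OffSum : Prop := ∀ δ : ℝ, 0 < δ → δ ≤ 1 → ∃ C : ℝ, 0 < C ∧ ∀ (e N : ℕ) (u : ℝ), 1 ≤ e → 0 ≤ u →
  (e : ℝ) * OS e N u ≤ C * Real.exp ((1 + δ) * u)

/-- the diagonal (a restatement of `H385.bt_sum_int`) -/
def BtSum : Prop := ∃ C : ℝ, 0 < C ∧ ∀ (T κ u : ℝ) (N : ℕ), 1 ≤ κ → 1 ≤ T →
    T ≤ Real.exp (κ ^ 2) → 0 ≤ u →
    (∀ n : ℕ, Integrable (fun t : ℝ => ‖cf T u t n‖ ^ 2)) ∧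
    ∫ t : ℝ, ∑ n ∈ Finset.Icc 1 N, ‖cf T u t n‖ ^ 2 ≤
      T / (2 * Real.pi) * S1 u + C * κ * (u + 1)

/-- the bound for the finite sums -/
def FinB : Prop := ∀ δ : ℝ, 0 < δ → δ ≤ 1 → ∃ C : ℝ, 0 < C ∧ ∀ (q : ℕ) [NeZero q] (T κ u : ℝ) (N : ℕ),
  1 ≤ κ → 1 ≤ T → T ≤ Real.exp (κ ^ 2) → 0 ≤ u →
  ∫ t : ℝ, ∑ χ ∈ PrimS q, ‖∑ n ∈ Finset.Icc 1 N, cf T u t n * χ (n : ZMod q)‖ ^ 2 ≤
    (phs q : ℝ) * (T / (2 * Real.pi) * S1 u + C * κ * (u + 1)) +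
      C * (q.divisors.card : ℝ) * Real.exp ((1 + δ) * u)

/-- job 5 -/
def Job5 : Prop := PrimExact → OffInt → OffSum → BtSum → FinB

/-- the bound for the infinite sums -/
def TsumB : Prop := ∀ δ : ℝ, 0 < δ → δ ≤ 1 → ∃ C : ℝ, 0 < C ∧ ∀ (q : ℕ) [NeZero q] (T κ u : ℝ),
  1 ≤ κ → 1 ≤ T → T ≤ Real.exp (κ ^ 2) → 0 ≤ u →
  ∫ t : ℝ, ∑ χ ∈ PrimS q,
      ‖∑' n : ℕ, (χ (n : ZMod q) * (ArithmeticFunction.vonMangoldt n : ℂ)) *
        ((Real.sqrt n : ℂ)⁻¹ * bt T u t (Real.log n))‖ ^ 2 ≤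
    (phs q : ℝ) * (T / (2 * Real.pi) * S1 u + C * κ * (u + 1)) +
      C * (q.divisors.card : ℝ) * Real.exp ((1 + δ) * u)

/-- job 6 -/
def Job6 : Prop := FinB → TsumB

/-! ### the number of primitive characters -/

/-- job 7 -/
def PhsLow : Prop := ∀ q : ℕ, 1 ≤ q → phs q ≠ 0 → q ≤ phs q * q.divisors.card ^ 2

/-- the off-diagonal part is small, for fixed exponents -/
def OffSmallAt (β δ : ℝ) : Prop := ∀ C ε : ℝ, 0 < C → 0 < ε →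
  ∃ K : ℝ, 1 ≤ K ∧ ∀ (q : ℕ) (T : ℝ), 1 ≤ q → K ≤ T → phs q ≠ 0 →
    C * (q.divisors.card : ℝ) * Real.exp ((1 + δ) * (β * Real.log (q * T))) ≤ ε * ((phs q : ℝ) * T)

/-- conclusion of job 8 -/
def OffSmall : Prop := ∀ β : ℝ, 0 < β → β < 1 → ∃ δ : ℝ, 0 < δ ∧ δ ≤ 1 ∧ OffSmallAt β δ

/-- job 8 -/
def Job8 : Prop := PhsLow → OffSmall

/-! ### the mean square hypothesis -/

/-- crude bound for `S1` (a restatement of `H385.S1_le`) and continuity -/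
def S1Crude : Prop := Continuous S1 ∧ ∃ C : ℝ, 0 < C ∧ ∀ u : ℝ, 0 ≤ u → 0 ≤ S1 u ∧ S1 u ≤ C * (u + 1)

/-- a restatement of `H385.lam_sq_smooth_w` -/
def S1Smooth : Prop := ∀ γ : ℝ, 0 < γ → γ < Real.pi → ∃ C : ℝ, 0 < C ∧ ∀ Λ : ℝ, 1 ≤ Λ →
    ∫ u in (0 : ℝ)..Λ, Rw γ (u / Λ) * S1 u ≤
      Real.sqrt Real.pi * Λ ^ 2 * (∫ α in (0 : ℝ)..1, α * Rw γ α) + C * Λ

/-- facts about the window -/
def RwFacts : Prop := ∀ γ : ℝ, 0 < γ → γ < Real.pi →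
  Continuous (Rw γ) ∧ (∀ x, 0 ≤ Rw γ x) ∧ ∀ x, Rw γ x ≤ Rw γ 0

/-- the admissible range of `T` -/
def Adm (K : ℝ) (q : ℕ) (T : ℝ) : Prop := K ≤ T ∧ K * Real.sqrt (Real.log (q * T)) ≤ T

/-- mean square hypothesis for the family, one modulus -/
def HYq (γ β c' : ℝ) : Prop := ∀ ε : ℝ, 0 < ε → ∃ K : ℝ, 1 ≤ K ∧
  ∀ (q : ℕ) [NeZero q] (T : ℝ), Adm K q T → phs q ≠ 0 →
  ∃ (Yf : ℝ → ℝ) (y1 y2 : ℝ), 0 ≤ y1 ∧ 0 ≤ y2 ∧
    (∀ u ∈ Set.Icc 0 (β * Real.log (q * T)), ∫ t : ℝ, ∑ χ ∈ PrimS q,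
      ‖∑' n : ℕ, (χ (n : ZMod q) * (ArithmeticFunction.vonMangoldt n : ℂ)) *
        ((Real.sqrt n : ℂ)⁻¹ * bt T u t (Real.log n))‖ ^ 2 ≤ Yf u) ∧
    (∀ u ∈ Set.Icc 0 (β * Real.log (q * T)), Yf u ≤ T * (y1 * (u + 1) + y2)) ∧
    IntervalIntegrable Yf volume 0 (β * Real.log (q * T)) ∧
    (2 / (Real.sqrt Real.pi * (β * Real.log (q * T)))) * (∫ u in (0 : ℝ)..(β * Real.log (q * T)),
      Rw γ (u / (β * Real.log (q * T))) * Yf u) ≤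
      T / (2 * Real.pi) * Real.log (q * T) * (phs q : ℝ) * (c' + ε) ∧
    Real.sqrt y1 + Real.sqrt y2 ≤ ε * Real.log (q * T) * Real.sqrt (phs q)

/-- the bound for the mean square, with `κ = √(6 L)` -/
noncomputable def Yq (δ C : ℝ) (q : ℕ) (T u : ℝ) : ℝ :=
  (phs q : ℝ) * (T / (2 * Real.pi) * S1 u + C * Real.sqrt (6 * Real.log (q * T)) * (u + 1)) +
    C * (q.divisors.card : ℝ) * Real.exp ((1 + δ) * u)

/-- conclusion of job 9a -/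
def PtY : Prop := ∀ β δ C : ℝ, 0 < β → β < 1 → 0 < δ → δ ≤ 1 → 0 < C → OffSmallAt β δ →
  ∃ A K : ℝ, 0 < A ∧ 1 ≤ K ∧ ∀ (q : ℕ) (T : ℝ), 1 ≤ q → Adm K q T → phs q ≠ 0 →
    ∀ u ∈ Set.Icc 0 (β * Real.log (q * T)),
      Yq δ C q T u ≤ T * (A * (phs q : ℝ) * (u + 1) + (phs q : ℝ))

/-- job 9a -/
def Job9a : Prop := S1Crude → PtY

/-- conclusion of job 9b -/
def IntY : Prop := ∀ γ β δ C ε : ℝ, 0 < γ → γ < Real.pi → 0 < β → β < 1 → 0 < δ → δ ≤ 1 → 0 < C →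
  0 < ε → OffSmallAt β δ →
  ∃ K : ℝ, 1 ≤ K ∧ ∀ (q : ℕ) (T : ℝ), 1 ≤ q → Adm K q T → phs q ≠ 0 →
    (2 / (Real.sqrt Real.pi * (β * Real.log (q * T)))) * (∫ u in (0 : ℝ)..(β * Real.log (q * T)),
      Rw γ (u / (β * Real.log (q * T))) * Yq δ C q T u) ≤
      T / (2 * Real.pi) * Real.log (q * T) * (phs q : ℝ) *
        (2 * β * (∫ α in (0 : ℝ)..1, α * Rw γ α) + ε)

/-- job 9b -/
def Job9b : Prop := S1Crude → S1Smooth → RwFacts → IntY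

/-- job 9c -/
def Job9c : Prop := TsumB → OffSmall → PtY → IntY → S1Crude →
  ∀ γ β : ℝ, 0 < γ → γ < Real.pi → 0 < β → β < 1 → HYq γ β (2 * β * (∫ α in (0 : ℝ)..1, α * Rw γ α))

/-! ### the zeros -/

/-- conclusion of job 10 -/
def CoreC (c : ℝ) : Prop := ∀ ε : ℝ, 0 < ε → ∃ K : ℝ, 1 ≤ K ∧
  ∀ (q : ℕ) [NeZero q] (T : ℝ), Adm K q T → phs q ≠ 0 →
    ∑ χ ∈ PrimS q, (2 * (NN (LF q χ) T (2 * T) : ℝ) - (Ns (LF q χ) T (2 * T) : ℝ)) ≤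
      (c + ε) * (T / (2 * Real.pi) * Real.log (q * T)) * (phs q : ℝ) ∧
    ∑ χ ∈ PrimS q, (3 * (NN (LF q χ) T (2 * T) : ℝ) - 2 * (Nd (LF q χ) T (2 * T) : ℝ)) ≤
      (c + ε) * (T / (2 * Real.pi) * Real.log (q * T)) * (phs q : ℝ)

/-- job 10 -/
def Job10 : Prop := RwFacts → ∀ γ β c' : ℝ, 0 < γ → γ < Real.pi → 0 < β → β < 1 → 0 ≤ c' →
  HYq γ β c' → CoreC (Rw γ 0 / β + c')

/-- job 11: the lower bound for the number of zeros -/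
def NLowq : Prop := ∀ ε : ℝ, 0 < ε → ∃ K : ℝ, 1 ≤ K ∧
  ∀ (q : ℕ) [NeZero q] (χ : DirichletCharacter ℂ q) (T : ℝ), χ.IsPrimitive → Adm K q T →
    (1 - ε) * (T / (2 * Real.pi) * Real.log (q * T)) ≤ (NN (LF q χ) T (2 * T) : ℝ)

end Pool.Agent.NH13.DZ
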